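import Pool.Agent.Lib.MP_1e5ad7_co.R.Face

/-! The simplex bound for a truncated cell with a cone removed. -/

set_option autoImplicit false

open MeasureTheory Set Real Function
open scoped ENNReal

namespace Pool.Agent.Lib.MP_1e5ad7_co.R

lemma dil_zero (c : ℝ) (y : E3) : dil (prj 0 0 0 0) c y = c • y := by simp [dil_apply, prj_apply]

theorem step0 {t : ℝ} (ht : 0 ≤ t) {A : Set E3} (hA : MeasurableSet A)
    (hinv : ∀ c : ℝ, 0 < c → ∀ y ∈ A, c • y ∈ A) {N : E3 → ℝ} (hN : Measurable N)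
    (hpos : ∀ y ∈ A, y ≠ 0 → 0 < N y) (hNc : ∀ c : ℝ, 0 < c → ∀ y, N (c • y) = c * N y) :
    ∫⁻ y in A ∩ {y | N y < 1}, (Metric.ball (0 : E3) t).indicator 1 y ≤
      ∫⁻ y in A ∩ {y | N y < 1}, ENNReal.ofReal ((t * N y / ‖y‖) ^ 3) := by
  have hdet : ∀ c, 0 < c → LinearMap.det (dil (prj 0 0 0 0) c) = c ^ (2 + 1) := by
    intro c _
    rw [det_prj]; simp; ring
  refine scale_le (prj 0 0 0 0) (fun y => by simp [prj_apply]) (moved hdet) 2 hdet hA
    (by simpa only [dil_zero] using hinv) hN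
    (fun y hy h => hpos y hy fun e => h (by simp [e]))
    (fun c hc y _ => by rw [dil_zero, hNc c hc])
    (measurable_one.indicator Metric.isOpen_ball.measurableSet) fun y hy hn => ?_
  have hy0 : y ≠ 0 := by
    rintro rfl
    have := hNc 2 two_pos 0
    rw [smul_zero] at this
    linarith
  have h0 := norm_pos_iff.2 hy0
  have e : t * N y / ‖y‖ = t / (‖y‖ / N y) := by field_simp
  rw [e]
  refine le_trans (le_of_eq ?_) (lev0 ht (div_pos h0 hn))
  refine setLIntegral_congr_fun measurableSet_Ioo fun c hc => ?_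
  have hc0 := hc.1
  have e2 : ‖(c / N y) • y‖ = c * (‖y‖ / N y) := by
    rw [norm_smul, Real.norm_of_nonneg (by positivity)]; ring
  simp only [dil_zero, indicator, mem_ball_zero_iff, e2, mem_Iio, Pi.one_apply]

lemma null_eq {p q : E3} (h : p ≠ q) : volume {y : E3 | inner ℝ p y = inner ℝ q y} = 0 := by
  have : {y : E3 | inner ℝ p y = inner ℝ q y} =
      (LinearMap.ker (innerₛₗ ℝ (p - q)) : Submodule ℝ E3) := by
    ext y; simp [sub_eq_zero]
  rw [this]
  refine Measure.addHaar_submodule _ _ fun ht => h ?_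
  have : p - q ∈ LinearMap.ker (innerₛₗ ℝ (p - q)) := ht ▸ Submodule.mem_top
  rw [LinearMap.mem_ker] at this
  exact sub_eq_zero.1 (inner_self_eq_zero.1 this)

theorem cell {ι : Type} [Fintype ι] {t₁ t₂ t₃ : ℝ} (h1 : 0 < t₁) (h12 : t₁ < t₂) (h23 : t₂ ≤ t₃)
    {d : ℝ≥0∞} (hd : ∫⁻ c in Ioo (0 : ℝ) 1,
      ENNReal.ofReal (G (((1 - c ^ 2) * t₂ ^ 2 + c ^ 2 * t₃ ^ 2) / t₁ ^ 2)) ≤ d)
    (v : ι → E3) (hinj : Injective v) (H1 : ∀ j y, inner ℝ (v j) y = 1 → t₁ ≤ ‖y‖)
    (H2 : ∀ j k, j ≠ k → ∀ y, inner ℝ (v j) y = 1 → inner ℝ (v k) y = 1 → t₂ ≤ ‖y‖)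
    (H3 : ∀ j k l, j ≠ k → j ≠ l → k ≠ l → ∀ y, inner ℝ (v j) y = 1 → inner ℝ (v k) y = 1 →
      inner ℝ (v l) y = 1 → t₃ ≤ ‖y‖)
    {Γ : Set E3} (hΓm : MeasurableSet Γ) (hΓc : ∀ c : ℝ, 0 < c → ∀ y, y ∉ Γ → c • y ∉ Γ)
    (hΓ : ∀ y ∈ Γ, ∀ j, t₃ * inner ℝ (v j) y ≤ ‖y‖) :
    volume (Metric.ball (0 : E3) t₁ \ Γ) ≤
      d * volume ({y | ‖y‖ < t₃ ∧ ∀ j, inner ℝ (v j) y < 1} \ Γ) := by
  classical
  have h3 : 0 < t₃ := by linarith
  have hB : MeasurableSet (Metric.ball (0 : E3) t₁) := Metric.isOpen_ball.measurableSet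
  have e0 : volume (Metric.ball (0 : E3) t₁ \ Γ) =
      ∫⁻ y in Metric.ball (0 : E3) t₁ \ Γ, (Metric.ball (0 : E3) t₁).indicator 1 y := by
    rw [← setLIntegral_one]
    exact setLIntegral_congr_fun (hB.diff hΓm) fun y hy => (indicator_of_mem hy.1 1).symm
  set A : Set E3 := Γᶜ ∩ {y | ∀ j, t₃ * inner ℝ (v j) y ≤ ‖y‖} with hA
  have hAm : MeasurableSet A := by
    simp only [hA, ofPred_forall]
    exact hΓm.compl.inter (.iInter fun k => measurableSet_le (by fun_prop) (by fun_prop))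
  set F : ι → Set E3 := fun j => {y | ‖y‖ < t₃ * inner ℝ (v j) y ∧
    ∀ k : {k // k ≠ j}, inner ℝ (v k.1) y < inner ℝ (v j) y} with hF
  have hFm : ∀ j, MeasurableSet (F j) := by
    intro j
    simp only [hF, ofPred_forall, ofPred_and]
    exact (measurableSet_lt (by fun_prop) (by fun_prop)).inter
      (.iInter fun k => measurableSet_lt (by fun_prop) (by fun_prop))
  have hae : ∀ᵐ y : E3, ∀ j k, j ≠ k → inner ℝ (v j) y ≠ inner ℝ (v k) y := by
    simp only [ae_all_iff]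
    intro j k h
    rw [ae_iff]
    simpa using null_eq (hinj.ne h)
  rw [e0]
  refine pieces (κ := Option ι) (fun o => o.elim (A ∩ {y | ‖y‖ / t₃ < 1})
    fun j => F j ∩ {y | inner ℝ (v j) y < 1}) ?_ ?_ ?_ ?_ ?_
  · filter_upwards [hae] with y hne hy
    have hy1 : ‖y‖ < t₁ := mem_ball_zero_iff.1 hy.1
    show y ∈ ⋃ _, _
    rw [mem_iUnion]
    by_cases hc : ∀ j, t₃ * inner ℝ (v j) y ≤ ‖y‖
    · exact ⟨none, ⟨hy.2, hc⟩, (div_lt_one h3).2 (by linarith)⟩
    push Not at hc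
    obtain ⟨j₀, hj₀⟩ := hc
    obtain ⟨j, -, hmax⟩ := Finset.univ.exists_max_image (fun j => inner ℝ (v j) y)
      ⟨j₀, Finset.mem_univ _⟩
    refine ⟨some j, ⟨hj₀.trans_le (mul_le_mul_of_nonneg_left (hmax j₀ (Finset.mem_univ _)) h3.le),
      fun k => lt_of_le_of_ne (hmax k.1 (Finset.mem_univ _)) (hne _ _ k.2)⟩, ?_⟩
    by_contra hn
    have hn' : 1 ≤ inner ℝ (v j) y := not_lt.1 hn
    have h0 : 0 < inner ℝ (v j) y := by linarith
    have := H1 j ((inner ℝ (v j) y)⁻¹ • y) (by rw [real_inner_smul_right, inv_mul_cancel₀ h0.ne'])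
    rw [norm_smul, Real.norm_of_nonneg (inv_pos.2 h0).le, le_inv_mul_iff₀ h0] at this
    nlinarith
  · rintro (_ | j)
    · rintro y ⟨⟨p1, p2⟩, p3⟩
      have p4 : ‖y‖ < t₃ := (div_lt_one h3).1 p3
      exact ⟨⟨p4, fun j => by nlinarith [p2 j]⟩, p1⟩
    · rintro y ⟨⟨p1, p2⟩, p3⟩
      have p4 : inner ℝ (v j) y < 1 := p3
      refine ⟨⟨by nlinarith, fun k => ?_⟩, fun h => absurd (hΓ y h j) (not_le.2 p1)⟩
      by_cases e : k = j
      · rwa [e]
      · exact (p2 ⟨k, e⟩).trans p4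
  · have hno : ∀ j, Disjoint (A ∩ {y | ‖y‖ / t₃ < 1}) (F j ∩ {y | inner ℝ (v j) y < 1}) :=
      fun j => Set.disjoint_left.2 fun y p q => absurd (p.1.2 j) (not_le.2 q.1.1)
    rintro (_ | k) (_ | k') hne
    · exact absurd rfl hne
    · exact hno k'
    · exact (hno k).symm
    · have hkk : k ≠ k' := fun e => hne (by rw [e])
      exact Set.disjoint_left.2 fun y p q => lt_asymm (p.1.2 ⟨k', hkk.symm⟩) (q.1.2 ⟨k, hkk⟩)
  · rintro (_ | j)
    · exact hAm.inter (measurableSet_lt (by fun_prop) measurable_const)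
    · exact (hFm j).inter (measurableSet_lt (by fun_prop) measurable_const)
  · rintro (_ | j)
    · refine (step0 h1.le hAm ?_ (by fun_prop) (fun y _ h => div_pos (norm_pos_iff.2 h) h3)
        ?_).trans ?_
      · rintro c hc y ⟨p1, p2⟩
        refine ⟨hΓc c hc y p1, fun j => ?_⟩
        rw [real_inner_smul_right, norm_smul, Real.norm_of_nonneg hc.le]
        nlinarith [p2 j]
      · intro c hc y
        rw [norm_smul, Real.norm_of_nonneg hc.le, mul_div_assoc]
      · rw [← setLIntegral_const]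
        refine lintegral_mono fun y => le_trans (ENNReal.ofReal_le_ofReal ?_) (G_last h1 h12 h23 hd)
        have e : √(t₃ ^ 2 / t₁ ^ 2) = t₃ / t₁ := by rw [← div_pow, Real.sqrt_sq (by positivity)]
        have h4 : t₁ * (‖y‖ / t₃) / ‖y‖ ≤ t₁ / t₃ := by
          rcases (norm_nonneg y).eq_or_lt with h | h
          · rw [← h, div_zero]; positivity
          · exact le_of_eq (by field_simp)
        refine (pow_le_pow_left₀ (by positivity) h4 3).trans ?_
        rw [G, e, le_div_iff₀ (by positivity)]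
        have h5 : t₁ / t₃ ≤ 1 := (div_le_one h3).2 (by linarith)
        have h6 : 0 < t₁ / t₃ := by positivity
        have h7 : (t₁ / t₃) ^ 3 * (t₃ / t₁ * (1 + t₃ / t₁)) = (t₁ / t₃) ^ 2 + t₁ / t₃ := by
          field_simp
        rw [h7]
        nlinarith
    · refine (step0 h1.le (hFm j) ?_ (by fun_prop) ?_
        (fun c _ y => real_inner_smul_right _ _ _)).trans ?_
      · rintro c hc y ⟨p1, p2⟩
        refine ⟨?_, fun k => ?_⟩
        · rw [real_inner_smul_right, norm_smul, Real.norm_of_nonneg hc.le]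
          nlinarith
        · rw [real_inner_smul_right, real_inner_smul_right]
          exact mul_lt_mul_of_pos_left (p2 k) hc
      · exact fun y hy _ => (mul_pos_iff_of_pos_left h3).1 ((norm_nonneg y).trans_lt hy.1)
      · refine face h1 h12 h23 hd (v j) (fun k : {k // k ≠ j} => v k.1) (H1 j)
          (fun k => H2 j k.1 k.2.symm)
          (fun k l h => H3 j k.1 l.1 k.2.symm l.2.symm fun e => h (Subtype.ext e)) ?_
        ext y
        simp only [hF, mem_inter_iff, mem_ofPred_eq]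
        tauto

end Pool.Agent.Lib.MP_1e5ad7_co.R
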