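import Pool.Agent.Lib.MP_1e5ad7_co.R.Steps

/-! The simplex bound on the cone over one face of a truncated cell. -/

set_option autoImplicit false

open MeasureTheory Set Real Function
open scoped ENNReal

namespace Pool.Agent.Lib.MP_1e5ad7_co.R

lemma norm_le_of_near {a z : E3} (h : 0 ≤ inner ℝ a (z - a)) : ‖a‖ ≤ ‖z‖ := by
  rw [inner_sub_right, real_inner_self_eq_norm_sq] at h
  have h1 := real_inner_le_norm a z
  by_contra h2
  push Not at h2
  nlinarith [norm_nonneg z]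

lemma chord {t : ℝ} {v u u' z z' : E3}
    (H : ∀ y, inner ℝ v y = 1 → inner ℝ u y = 1 → inner ℝ u' y = 1 → t ≤ ‖y‖)
    (h1 : inner ℝ v z = 1) (h2 : inner ℝ u z = 1) (h3 : ‖z‖ < t)
    (h1' : inner ℝ v z' = 1) (h2' : inner ℝ u z' = 1) (h3' : ‖z'‖ < t)
    (h : inner ℝ u' z < 1) : inner ℝ u' z' < 1 := by
  by_contra hn
  push Not at hn
  have hD : 0 < inner ℝ u' z' - inner ℝ u' z := by linarith
  set θ := (1 - inner ℝ u' z) / (inner ℝ u' z' - inner ℝ u' z) with hθ
  have θ0 : 0 ≤ θ := div_nonneg (by linarith) hD.le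
  have θ1 : θ ≤ 1 := (div_le_one hD).2 (by linarith)
  have e : θ * (inner ℝ u' z' - inner ℝ u' z) = 1 - inner ℝ u' z := div_mul_cancel₀ _ hD.ne'
  have hb := convex_ball (0 : E3) t (mem_ball_zero_iff.2 h3) (mem_ball_zero_iff.2 h3')
    (sub_nonneg.2 θ1) θ0 (by ring)
  refine absurd (H _ ?_ ?_ ?_) (not_le.2 (mem_ball_zero_iff.1 hb)) <;>
    simp only [inner_add_right, real_inner_smul_right, h1, h1', h2, h2'] <;> linarith

lemma G_last {t₁ t₂ t₃ : ℝ} (h1 : 0 < t₁) (h12 : t₁ < t₂) (h23 : t₂ ≤ t₃) {d : ℝ≥0∞}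
    (hd : ∫⁻ c in Ioo (0 : ℝ) 1,
      ENNReal.ofReal (G (((1 - c ^ 2) * t₂ ^ 2 + c ^ 2 * t₃ ^ 2) / t₁ ^ 2)) ≤ d) :
    ENNReal.ofReal (G (t₃ ^ 2 / t₁ ^ 2)) ≤ d := by
  refine le_trans ?_ hd
  have : ENNReal.ofReal (G (t₃ ^ 2 / t₁ ^ 2)) =
      ∫⁻ _ in Ioo (0 : ℝ) 1, ENNReal.ofReal (G (t₃ ^ 2 / t₁ ^ 2)) := by simp
  rw [this]
  refine setLIntegral_mono' measurableSet_Ioo fun c hc => ENNReal.ofReal_le_ofReal ?_
  have h3 : 0 ≤ 1 - c ^ 2 := by nlinarith [hc.1, hc.2]
  have hc0 := hc.1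
  have : 0 < t₂ := by linarith
  have : 0 < t₃ := by linarith
  refine G_anti (by positivity) (div_le_div_of_nonneg_right ?_ (by positivity))
  nlinarith [mul_le_mul_of_nonneg_left (pow_le_pow_left₀ (by linarith) h23 2) h3]

theorem face {ι : Type} [Fintype ι] {t₁ t₂ t₃ : ℝ} (h1 : 0 < t₁) (h12 : t₁ < t₂) (h23 : t₂ ≤ t₃)
    {d : ℝ≥0∞} (hd : ∫⁻ c in Ioo (0 : ℝ) 1,
      ENNReal.ofReal (G (((1 - c ^ 2) * t₂ ^ 2 + c ^ 2 * t₃ ^ 2) / t₁ ^ 2)) ≤ d)
    (v : E3) (u : ι → E3) (H1 : ∀ y, inner ℝ v y = 1 → t₁ ≤ ‖y‖)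
    (H2 : ∀ k y, inner ℝ v y = 1 → inner ℝ (u k) y = 1 → t₂ ≤ ‖y‖)
    (H3 : ∀ k k', k ≠ k' → ∀ y, inner ℝ v y = 1 → inner ℝ (u k) y = 1 → inner ℝ (u k') y = 1 →
      t₃ ≤ ‖y‖) {X : Set E3}
    (hX : X = {y | ‖y‖ < t₃ * inner ℝ v y ∧ inner ℝ v y < 1 ∧
      ∀ k, inner ℝ (u k) y < inner ℝ v y}) :
    ∫⁻ y in X, psi t₁ v y ≤ d * volume X := by
  classical
  rcases X.eq_empty_or_nonempty with rfl | ⟨y₀, hy₀⟩
  · simp
  have h3 : 0 < t₃ := by linarith
  have hl : ∀ y ∈ X, 0 < inner ℝ v y := by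
    intro y hy
    rw [hX] at hy
    exact (mul_pos_iff_of_pos_left h3).1 ((norm_nonneg y).trans_lt hy.1)
  set K : Set E3 := {z | inner ℝ v z = 1 ∧ ‖z‖ ≤ t₃ ∧ ∀ k, inner ℝ (u k) z ≤ 1} with hK
  have hKX : ∀ y ∈ X, (inner ℝ v y)⁻¹ • y ∈ K ∧ ‖(inner ℝ v y)⁻¹ • y‖ < t₃ := by
    intro y hy
    have h0 := hl y hy
    rw [hX] at hy
    have hn : ‖(inner ℝ v y)⁻¹ • y‖ < t₃ := by
      rw [norm_smul, Real.norm_of_nonneg (inv_pos.2 h0).le, inv_mul_lt_iff₀ h0, mul_comm]
      exact hy.1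
    refine ⟨⟨by rw [real_inner_smul_right, inv_mul_cancel₀ h0.ne'], hn.le, fun k => ?_⟩, hn⟩
    rw [real_inner_smul_right, inv_mul_le_iff₀ h0, mul_one]
    exact (hy.2.2 k).le
  have hKc : IsClosed K := by
    simp only [hK, ofPred_and, ofPred_forall]
    exact (isClosed_eq (by fun_prop) continuous_const).inter
      ((isClosed_le (by fun_prop) continuous_const).inter
        (isClosed_iInter fun k => isClosed_le (by fun_prop) continuous_const))
  have hKv : Convex ℝ K := by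
    rintro x ⟨x1, x2, x3⟩ y ⟨y1, y2, y3⟩ p q hp hq hpq
    refine ⟨by simp [inner_add_right, real_inner_smul_right, x1, y1, hpq], ?_, fun k => ?_⟩
    · exact mem_closedBall_zero_iff.1 (convex_closedBall (0 : E3) t₃
        (mem_closedBall_zero_iff.2 x2) (mem_closedBall_zero_iff.2 y2) hp hq hpq)
    · simp only [inner_add_right, real_inner_smul_right]
      nlinarith [mul_le_mul_of_nonneg_left (x3 k) hp, mul_le_mul_of_nonneg_left (y3 k) hq]
  obtain ⟨a, ⟨hva, -, hα⟩, hnear⟩ := nearest ⟨_, (hKX y₀ hy₀).1⟩ hKc hKv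
  have ha3 : ‖a‖ < t₃ := (norm_le_of_near (hnear _ (hKX y₀ hy₀).1)).trans_lt (hKX y₀ hy₀).2
  have hin : ∀ y ∈ X, 0 ≤ inner ℝ a (y - inner ℝ v y • a) := by
    intro y hy
    have h0 := hl y hy
    have e : y - inner ℝ v y • a = inner ℝ v y • ((inner ℝ v y)⁻¹ • y - a) := by
      rw [smul_sub, smul_smul, mul_inv_cancel₀ h0.ne', one_smul]
    rw [e, real_inner_smul_right]
    exact mul_nonneg h0.le (hnear _ (hKX y hy).1)
  set α : ι → ℝ := fun k => inner ℝ (u k) a with hαd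
  set m : ι → E3 := fun k => (1 - α k)⁻¹ • (u k - α k • v) with hm
  have hum : ∀ k, α k < 1 → ∀ y,
      inner ℝ (u k) y = α k * inner ℝ v y + (1 - α k) * inner ℝ (m k) y := by
    intro k hk y
    have : 1 - α k ≠ 0 := by linarith
    simp only [hm, real_inner_smul_left, inner_sub_left]
    field_simp
    ring
  have hma : ∀ k, inner ℝ (m k) a = 0 := by
    intro k
    simp only [hm, real_inner_smul_left, inner_sub_left, hva, hαd]
    ring
  set s : Set E3 := Metric.ball (-a) t₃ with hs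
  have hs0 : s ∈ nhds (0 : E3) := Metric.isOpen_ball.mem_nhds (by simpa [hs] using ha3)
  have hg : ∀ w, gauge s w < 1 ↔ ‖a + w‖ < t₃ := by
    intro w
    have := setOfPred_gauge_lt_one_eq_interior (convex_ball (-a) t₃) hs0
    rw [Metric.isOpen_ball.interior_eq] at this
    have h := Set.ext_iff.1 this w
    rw [mem_ball_iff_norm, sub_neg_eq_add, add_comm] at h
    exact h
  have hgc := continuous_gauge (convex_ball (-a) t₃) hs0
  set N : E3 → ℝ := fun y => gauge s ((inner ℝ v y)⁻¹ • (y - inner ℝ v y • a)) with hN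
  have hNm : Measurable N := hgc.measurable.comp (by fun_prop)
  have hN0 : ∀ y, 0 ≤ N y := fun y => gauge_nonneg _
  have hNz : ∀ y, 0 < inner ℝ v y → ∀ x : ℝ, 0 < x →
      (‖a + x⁻¹ • (y - inner ℝ v y • a)‖ < t₃ ↔ inner ℝ v y * N y < x) := by
    intro y hy x hx
    rw [← hg]
    simp only [hN]
    rw [gauge_smul_of_nonneg (inv_pos.2 hx).le, gauge_smul_of_nonneg (inv_pos.2 hy).le,
      smul_eq_mul, smul_eq_mul, ← mul_assoc, mul_inv_cancel₀ hy.ne', one_mul,
      inv_mul_lt_iff₀ hx, mul_one]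
  have hzv : ∀ y (x : ℝ), inner ℝ v (a + x • (y - inner ℝ v y • a)) = 1 := by
    intro y x
    simp [inner_add_right, inner_sub_right, real_inner_smul_right, hva]
  have hzu : ∀ k y (x : ℝ), inner ℝ (u k) (a + x • (y - inner ℝ v y • a)) =
      α k + x * (inner ℝ (u k) y - α k * inner ℝ v y) := by
    intro k y x
    simp only [inner_add_right, inner_sub_right, real_inner_smul_right, hαd]
    ring
  have hzk : ∀ k, α k < 1 → ∀ y, 0 < inner ℝ (m k) y →
      inner ℝ (u k) (a + (inner ℝ (m k) y)⁻¹ • (y - inner ℝ v y • a)) = 1 := by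
    intro k hk y hy
    rw [hzu, hum k hk y]
    field_simp
    ring
  set act : ι → Prop := fun k => α k < 1 ∧ ∃ z, inner ℝ v z = 1 ∧ inner ℝ (u k) z = 1 ∧
    ‖z‖ < t₃ ∧ ∀ k', k' ≠ k → inner ℝ (u k') z < 1 with hact
  set Tr : ι → Set E3 := fun k => {y | (0 < inner ℝ (m k) y ∧ inner ℝ (m k) y < inner ℝ v y ∧
    inner ℝ v y < 1) ∧ ‖a + (inner ℝ (m k) y)⁻¹ • (y - inner ℝ v y • a)‖ < t₃} with hTr
  set A : Set E3 := {y | (0 < inner ℝ v y ∧ inner ℝ v y < 1) ∧
    (∀ k, ¬ α k < 1 → inner ℝ (u k) y < inner ℝ v y) ∧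
      ∀ k, α k < 1 → inner ℝ (m k) y ≤ inner ℝ v y * N y} with hA
  have hAm : MeasurableSet A := by
    simp only [hA, ofPred_and, ofPred_forall]
    refine (MeasurableSet.inter (measurableSet_lt (by fun_prop) (by fun_prop))
      (measurableSet_lt (by fun_prop) (by fun_prop))).inter (MeasurableSet.inter ?_ ?_)
    · exact .iInter fun k => .iInter fun _ => measurableSet_lt (by fun_prop) (by fun_prop)
    · exact .iInter fun k => .iInter fun _ => measurableSet_le (by fun_prop) (by fun_prop)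
  have hedge : ∀ k, act k → ∀ y ∈ Tr k, ∀ k', k' ≠ k →
      inner ℝ (u k') (a + (inner ℝ (m k) y)⁻¹ • (y - inner ℝ v y • a)) < 1 := by
    rintro k ⟨hk, z, z1, z2, z3, z4⟩ y hy k' hk'
    exact chord (H3 k k' hk'.symm) z1 z2 z3 (hzv y _) (hzk k hk y hy.1.1) hy.2 (z4 k' hk')
  have hTX : ∀ k, act k → Tr k ⊆ X := by
    intro k hk y hy
    obtain ⟨⟨p1, p2, p3⟩, p4⟩ := hy
    have he := hedge k hk y ⟨⟨p1, p2, p3⟩, p4⟩
    rw [hX]
    refine ⟨?_, p3, fun k' => ?_⟩
    · have h0 := p1.trans p2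
      have h5 := (hNz y h0 _ h0).2 (((hNz y h0 _ p1).1 p4).trans p2)
      rw [smul_sub, smul_smul, inv_mul_cancel₀ h0.ne', one_smul, add_sub_cancel, norm_smul,
        Real.norm_of_nonneg (inv_pos.2 h0).le, inv_mul_lt_iff₀ h0] at h5
      linarith
    · by_cases e : k' = k
      · rw [e, hum k hk.1 y]
        nlinarith [hk.1]
      · have h5 := he k' e
        rw [hzu, ← lt_sub_iff_add_lt', inv_mul_lt_iff₀ p1] at h5
        nlinarith [hα k']
  have hAX : A ∩ {y | N y < 1} ⊆ X := by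
    rintro y ⟨⟨⟨p1, p2⟩, p3, p4⟩, p5⟩
    have p5' : N y < 1 := p5
    rw [hX]
    refine ⟨?_, p2, fun k => ?_⟩
    · have h5 := (hNz y p1 _ p1).2 (mul_lt_of_lt_one_right p1 p5')
      rw [smul_sub, smul_smul, inv_mul_cancel₀ p1.ne', one_smul, add_sub_cancel, norm_smul,
        Real.norm_of_nonneg (inv_pos.2 p1).le, inv_mul_lt_iff₀ p1] at h5
      linarith
    · by_cases hk : α k < 1
      · rw [hum k hk y]
        nlinarith [p4 k hk, mul_lt_of_lt_one_right p1 p5']
      · exact p3 k hk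
  refine pieces (κ := Option {k // act k})
    (fun o => o.elim (A ∩ {y | N y < 1}) fun k => Tr k.1) (LE.le.eventuallyLE fun y hy => ?_)
    ?_ ?_ ?_ ?_
  · have h0 := hl y hy
    have hn : inner ℝ v y * N y < inner ℝ v y := by
      rw [← hNz y h0 _ h0, smul_sub, smul_smul, inv_mul_cancel₀ h0.ne', one_smul, add_sub_cancel]
      exact (hKX y hy).2
    rw [hX] at hy
    rw [mem_iUnion]
    by_cases hc : ∀ k, α k < 1 → inner ℝ (m k) y ≤ inner ℝ v y * N y
    · exact ⟨none, ⟨⟨h0, hy.2.1⟩, fun k _ => hy.2.2 k, hc⟩, (mul_lt_iff_lt_one_right h0).1 hn⟩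
    push Not at hc
    obtain ⟨k₀, hk₀, hk₀'⟩ := hc
    obtain ⟨k, hk, hmax⟩ := (Finset.univ.filter fun k => α k < 1).exists_max_image
      (fun k => inner ℝ (m k) y) ⟨k₀, by simpa using hk₀⟩
    have hk1 : α k < 1 := by simpa using hk
    have h5 : inner ℝ v y * N y < inner ℝ (m k) y := hk₀'.trans_le (hmax k₀ (by simpa using hk₀))
    have h6 : 0 < inner ℝ (m k) y := (mul_nonneg h0.le (hN0 y)).trans_lt h5
    have h7 := (hNz y h0 _ h6).2 h5
    refine ⟨some ⟨k, hk1, _, hzv y _, hzk k hk1 y h6, h7, fun k' hk' => ?_⟩, ⟨h6, ?_, hy.2.1⟩, h7⟩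
    · by_cases hk2 : α k' < 1
      · refine lt_of_le_of_ne ?_ fun e => ?_
        · rw [hzu, ← le_sub_iff_add_le', inv_mul_le_iff₀ h6, hum k' hk2 y]
          nlinarith [hmax k' (by simpa using hk2)]
        · exact absurd (H3 k k' hk'.symm _ (hzv y _) (hzk k hk1 y h6) e) (not_le.2 h7)
      · have e : α k' = 1 := le_antisymm (hα k') (not_lt.1 hk2)
        rw [hzu, ← lt_sub_iff_add_lt', inv_mul_lt_iff₀ h6, e]
        linarith [hy.2.2 k']
    · have h8 := hy.2.2 k
      rw [hum k hk1 y] at h8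
      nlinarith
  · rintro (_ | k)
    · exact hAX
    · exact hTX k.1 k.2
  · have hno : ∀ k : {k // act k}, Disjoint (A ∩ {y | N y < 1}) (Tr k.1) := by
      intro k
      rw [Set.disjoint_left]
      rintro y ⟨⟨⟨p1, p2⟩, p3, p4⟩, p5⟩ ⟨⟨q1, q2, q3⟩, q4⟩
      exact absurd ((hNz y p1 _ q1).1 q4) (not_lt.2 (p4 k.1 k.2.1))
    have hlt : ∀ k k' : {k // act k}, k' ≠ k → ∀ y ∈ Tr k.1,
        inner ℝ (m k'.1) y < inner ℝ (m k.1) y := by
      intro k k' hk y hy
      have h5 := hedge k.1 k.2 y hy k'.1 fun e => hk (Subtype.ext e)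
      rw [hzu, ← lt_sub_iff_add_lt', inv_mul_lt_iff₀ hy.1.1, hum k'.1 k'.2.1 y] at h5
      nlinarith [k'.2.1]
    rintro (_ | k) (_ | k') hne
    · exact absurd rfl hne
    · exact hno k'
    · exact (hno k).symm
    · have hkk : k ≠ k' := fun e => hne (by rw [e])
      exact Set.disjoint_left.2 fun y p q => lt_asymm (hlt k k' hkk.symm y p) (hlt k' k hkk y q)
  · rintro (_ | k)
    · exact hAm.inter (measurableSet_lt hNm measurable_const)
    · show MeasurableSet (Tr k.1)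
      simp only [hTr, ofPred_and]
      exact MeasurableSet.inter (MeasurableSet.inter (measurableSet_lt (by fun_prop) (by fun_prop))
        (MeasurableSet.inter (measurableSet_lt (by fun_prop) (by fun_prop))
          (measurableSet_lt (by fun_prop) (by fun_prop))))
        (measurableSet_lt (by fun_prop) (by fun_prop))
  · rintro (_ | k)
    · have hv1 : ∀ (c : ℝ) y, inner ℝ v (dil (prj v 0 a 0) c y) = inner ℝ v y := by
        intro c y
        simp [dil_one', inner_add_right, inner_sub_right, real_inner_smul_right, hva]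
      have hNc : ∀ c : ℝ, 0 < c → ∀ y, N (dil (prj v 0 a 0) c y) = c * N y := by
        intro c hc y
        simp only [hN]
        rw [hv1, dil_one', add_sub_cancel_left, smul_comm, gauge_smul_of_nonneg hc.le, smul_eq_mul]
      refine (step1 h1 hva (H1 a hva) hAm ?_ (fun y hy => hy.1.1) hNm ?_
        (fun c hc y _ => hNc c hc y) (fun y hy hn => hin y (hAX ⟨hy, hn⟩))
        (τ := fun _ => t₃ ^ 2 / t₁ ^ 2) ?_).trans ?_
      · rintro c hc y ⟨p1, p3, p4⟩
        refine ⟨by rwa [hv1], fun k hk => ?_, fun k hk => ?_⟩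
        · have e : inner ℝ (u k) a = 1 := le_antisymm (hα k) (not_lt.1 hk)
          rw [hv1, dil_one']
          simp only [inner_add_right, inner_sub_right, real_inner_smul_right, e]
          nlinarith [p3 k hk]
        · rw [hv1, hNc c hc, dil_one']
          simp only [inner_add_right, inner_sub_right, real_inner_smul_right, hma]
          nlinarith [p4 k hk]
      · intro y hy hne
        refine (gauge_pos (absorbent_nhds_zero hs0)
          (NormedSpace.isVonNBounded_of_isBounded _ Metric.isBounded_ball)).2 ?_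
        refine smul_ne_zero (inv_pos.2 hy.1.1).ne' (sub_ne_zero.2 fun e => hne ?_)
        simpa [prj_apply] using e.symm
      · intro y hy hn
        refine ⟨(one_lt_div (by positivity)).2 (by nlinarith), ?_⟩
        rw [div_mul_cancel₀ _ (by positivity)]
        refine pow_le_pow_left₀ h3.le (not_lt.1 fun h => ?_) 2
        exact lt_irrefl _ ((hNz y hy.1.1 _ (mul_pos hy.1.1 hn)).1 h)
      · rw [setLIntegral_const]
        exact mul_le_mul_left (G_last h1 h12 h23 hd) _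
    · obtain ⟨hk, z, z1, z2, z3, -⟩ := k.2
      have hmz : inner ℝ (m k.1) z = 1 := by
        have := hum k.1 hk z
        rw [z1, z2] at this
        exact mul_left_cancel₀ (by linarith : 1 - α k.1 ≠ 0) (by linarith)
      obtain ⟨b, ⟨b1, b2⟩, hb⟩ := nearest
        (K := {z | inner ℝ v z = 1 ∧ inner ℝ (m k.1) z = 1}) ⟨z, z1, hmz⟩
        ((isClosed_eq (by fun_prop) continuous_const).inter
          (isClosed_eq (by fun_prop) continuous_const)) (by
          rintro x ⟨x1, x2⟩ y ⟨y1, y2⟩ p q hp hq hpq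
          constructor <;> simp [inner_add_right, real_inner_smul_right, x1, y1, x2, y2, hpq])
      refine step2 h1 h12 h23 hd hva b1 (hma k.1) b2 (H1 a hva) (H2 k.1 b b1 ?_)
        ((norm_le_of_near (hb z ⟨z1, hmz⟩)).trans_lt z3) (fun w w1 w2 => ?_) rfl
        fun y hy => hin y (hTX k.1 k.2 hy)
      · rw [hum k.1 hk b, b1, b2]; ring
      · have p := hb (b + w) ⟨by simp [inner_add_right, b1, w1], by simp [inner_add_right, b2, w2]⟩
        have q := hb (b - w) ⟨by simp [inner_sub_right, b1, w1], by simp [inner_sub_right, b2, w2]⟩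
        rw [add_sub_cancel_left] at p
        rw [sub_sub_cancel_left, inner_neg_right] at q
        linarith

end Pool.Agent.Lib.MP_1e5ad7_co.R
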