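import Pool.Agent.Lib.MP_1e5ad7_co.R.Scale

/-! One dimensional integrals behind the simplex bound. -/

set_option autoImplicit false

open MeasureTheory Set Real
open scoped ENNReal

namespace Pool.Agent.Lib.MP_1e5ad7_co.R

lemma lftc {a b : ℝ} (hab : a ≤ b) {f F : ℝ → ℝ} (hF : ∀ x ∈ Icc a b, HasDerivAt F (f x) x)
    (hf : ContinuousOn f (Icc a b)) (h0 : ∀ x ∈ Ioo a b, 0 ≤ f x) :
    ∫⁻ x in Ioo a b, ENNReal.ofReal (f x) = ENNReal.ofReal (F b - F a) := by
  rw [← ofReal_integral_eq_lintegral_ofReal (hf.integrableOn_Icc.mono_set Ioo_subset_Icc_self)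
    (ae_restrict_of_forall_mem measurableSet_Ioo h0), ← integral_Ioc_eq_integral_Ioo,
    ← intervalIntegral.integral_of_le hab,
    intervalIntegral.integral_eq_sub_of_hasDerivAt (by rwa [uIcc_of_le hab])
      (by rw [← uIcc_of_le hab] at hf; exact hf.intervalIntegrable)]

/-- the planar average -/
noncomputable def G (τ : ℝ) : ℝ := 2 / (√τ * (1 + √τ))

lemma G_meas : Measurable G := by unfold G; fun_prop

lemma G_nonneg (τ : ℝ) : 0 ≤ G τ := by unfold G; positivity

lemma G_anti {a b : ℝ} (ha : 0 < a) (hab : a ≤ b) : G b ≤ G a := by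
  have h1 := Real.sqrt_pos.2 ha
  have h2 := Real.sqrt_le_sqrt hab
  unfold G
  gcongr

lemma G_lip {a b : ℝ} (ha : 13 / 10 ≤ a) (hab : a ≤ b) : G a ≤ G b + (b - a) / 2 := by
  have h1 : 114 / 100 ≤ √a := Real.le_sqrt_of_sq_le (by linarith)
  have h2 := Real.sqrt_le_sqrt hab
  have ea := Real.sq_sqrt (by linarith : 0 ≤ a)
  have eb := Real.sq_sqrt (by linarith : 0 ≤ b)
  unfold G
  set x := √a
  set y := √b
  have hx : 0 < x := by linarith
  have hy : 0 < y := by linarith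
  have h3 : 2439 / 1000 ≤ x * (1 + x) := by nlinarith
  have h4 : 2439 / 1000 ≤ y * (1 + y) := by nlinarith
  have h5 : 59 / 10 ≤ x * (1 + x) * (y * (1 + y)) := by nlinarith
  have h6 : 4 * (1 + x + y) ≤ (x + y) * (x * (1 + x) * (y * (1 + y))) := by nlinarith
  have h7 := mul_le_mul_of_nonneg_left h6 (sub_nonneg.2 h2)
  rw [← ea, ← eb, div_add_div _ _ (by positivity) two_ne_zero,
    div_le_div_iff₀ (by positivity) (by positivity)]
  nlinarith

lemma lev0 {t a : ℝ} (ht : 0 ≤ t) (ha : 0 < a) :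
    ∫⁻ c in Ioo (0 : ℝ) 1, ENNReal.ofReal (((2 : ℕ) + 1) * c ^ 2) *
      (Iio t).indicator (fun _ => (1 : ℝ≥0∞)) (c * a) ≤ ENNReal.ofReal ((t / a) ^ 3) := by
  have h := lftc (a := 0) (b := t / a) (by positivity) (f := fun c => 3 * c ^ 2)
    (F := fun c => c ^ 3) (fun x _ => by simpa using hasDerivAt_pow 3 x) (by fun_prop)
    (fun x _ => by positivity)
  simp only [ne_eq, OfNat.ofNat_ne_zero, not_false_eq_true, zero_pow, sub_zero] at h
  rw [← h, ← lintegral_indicator measurableSet_Ioo, ← lintegral_indicator measurableSet_Ioo]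
  refine lintegral_mono fun c => ?_
  by_cases hc : c ∈ Ioo (0 : ℝ) 1
  · rw [indicator_of_mem hc]
    by_cases h2 : c * a ∈ Iio t
    · rw [indicator_of_mem h2, indicator_of_mem (show c ∈ Ioo 0 (t / a) from
        ⟨hc.1, (lt_div_iff₀ ha).2 h2⟩), mul_one]
      norm_num
    · rw [indicator_of_notMem h2, mul_zero]; exact zero_le
  · rw [indicator_of_notMem hc]; exact zero_le

lemma lev1 {τ : ℝ} (hτ : 1 < τ) :
    ∫⁻ c in Ioo (0 : ℝ) 1, ENNReal.ofReal (2 * c * (√(1 - c ^ 2 + c ^ 2 * τ))⁻¹ ^ 3) =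
      ENNReal.ofReal (G τ) := by
  have hq : ∀ c : ℝ, 0 < 1 - c ^ 2 + c ^ 2 * τ := fun c => by nlinarith [sq_nonneg c]
  have h1 : τ - 1 ≠ 0 := by linarith
  rw [lftc zero_le_one (F := fun c => -2 / (τ - 1) * (√(1 - c ^ 2 + c ^ 2 * τ))⁻¹)]
  · congr 1
    have h2 : 1 < √τ := Real.lt_sqrt_of_sq_lt (by linarith)
    have e := Real.sq_sqrt (by linarith : 0 ≤ τ)
    simp only [G, one_pow, sub_self, zero_add, one_mul, ne_eq, OfNat.ofNat_ne_zero,
      not_false_eq_true, zero_pow, sub_zero, zero_mul, add_zero, sqrt_one, inv_one, mul_one]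
    set x := √τ
    have h3 : x ≠ 0 := by linarith
    have h4 : 1 + x ≠ 0 := by linarith
    rw [← e] at h1 ⊢
    field_simp
    ring
  · intro c _
    have hs := Real.sqrt_pos.2 (hq c)
    have d1 : HasDerivAt (fun c : ℝ => 1 - c ^ 2 + c ^ 2 * τ) (2 * c * (τ - 1)) c := by
      refine (((hasDerivAt_pow 2 c).const_sub 1).add ((hasDerivAt_pow 2 c).mul_const τ)).congr_deriv ?_
      simp; ring
    refine (((d1.sqrt (hq c).ne').inv hs.ne').const_mul (-2 / (τ - 1))).congr_deriv ?_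
    field_simp
  · refine Continuous.continuousOn ?_
    refine (by fun_prop : Continuous fun c : ℝ => 2 * c).mul (Continuous.pow ?_ _)
    exact Continuous.inv₀ (by fun_prop) fun c => (Real.sqrt_pos.2 (hq c)).ne'
  · intro c hc
    have := hc.1
    positivity

/-- the Rogers constant in dimension three -/
noncomputable def sig : ℝ := √18 * (arccos (1 / 3) - π / 3)

lemma two_arctan : 2 * arctan (1 / √2) = arccos (1 / 3) := by
  have h0 : 0 < arctan (1 / √2) := arctan_pos.2 (by positivity)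
  have h1 := arctan_lt_pi_div_two (1 / √2)
  rw [← arccos_cos (x := 2 * arctan (1 / √2)) (by linarith) (by linarith), cos_two_mul,
    cos_sq_arctan, div_pow, Real.sq_sqrt (by norm_num)]
  norm_num

lemma lev2 {S : ℝ} (hS : 0 ≤ S) :
    ∫⁻ c in Ioo (0 : ℝ) 1, ENNReal.ofReal (G (4 / 3 + c ^ 2 / 6) +
      ((1 - c ^ 2) * (4 * S / 9) + c ^ 2 * (3 * S / 4)) / 2) =
      ENNReal.ofReal (sig + 59 / 216 * S) := by
  have hq : ∀ c : ℝ, 0 < 4 / 3 + c ^ 2 / 6 := fun c => by positivity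
  have h2 : (0 : ℝ) < √2 := by positivity
  have e2 : √2 ^ 2 = 2 := Real.sq_sqrt (by norm_num)
  rw [lftc zero_le_one (F := fun c => 6 * √2 * (arctan (c / √2) -
    arctan (c / (√2 * √(4 / 3 + c ^ 2 / 6)))) + (4 * S / 9 * (c - c ^ 3 / 3) + S / 4 * c ^ 3) / 2)]
  · congr 1
    have e1 : √2 * √(4 / 3 + 1 ^ 2 / 6) = √3 := by
      rw [← Real.sqrt_mul (by norm_num)]; norm_num
    have e3 : √18 = 3 * √2 := by
      rw [show (18 : ℝ) = 3 ^ 2 * 2 by norm_num, Real.sqrt_mul (by norm_num),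
        Real.sqrt_sq (by norm_num)]
    have e4 : arctan (1 / √3) = π / 6 := by rw [← tan_pi_div_six, arctan_tan] <;> linarith [pi_pos]
    simp only [e1, e4, sig, e3, ← two_arctan, zero_div, arctan_zero]
    ring
  · intro c _
    have hs := Real.sqrt_pos.2 (hq c)
    have es := Real.sq_sqrt (hq c).le
    have d1 : HasDerivAt (fun c : ℝ => 4 / 3 + c ^ 2 / 6) (c / 3) c := by
      refine (((hasDerivAt_pow 2 c).div_const 6).const_add (4 / 3)).congr_deriv ?_
      simp; ring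
    have d2 := ((hasDerivAt_id c).div_const √2).arctan
    have d3 := ((hasDerivAt_id c).div ((d1.sqrt (hq c).ne').const_mul √2) (by positivity)).arctan
    have d4 : HasDerivAt (fun c : ℝ => (4 * S / 9 * (c - c ^ 3 / 3) + S / 4 * c ^ 3) / 2)
        (((1 - c ^ 2) * (4 * S / 9) + c ^ 2 * (3 * S / 4)) / 2) c := by
      refine (((((hasDerivAt_id c).sub ((hasDerivAt_pow 3 c).div_const 3)).const_mul
        (4 * S / 9)).add ((hasDerivAt_pow 3 c).const_mul (S / 4))).div_const 2).congr_deriv ?_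
      simp; ring
    refine (((d2.sub d3).const_mul (6 * √2)).add d4).congr_deriv ?_
    congr 1
    simp only [G, id, Pi.div_apply]
    set w := √(4 / 3 + c ^ 2 / 6)
    set ρ := √2
    have hc : c ^ 2 = 6 * w ^ 2 - 8 := by linarith
    have hw : 1 < w := by nlinarith [sq_nonneg c]
    have hw2 : w ^ 2 - 1 ≠ 0 := by nlinarith
    have a1 : 1 + (c / ρ) ^ 2 = 3 * (w ^ 2 - 1) := by rw [div_pow, e2, hc]; ring
    have a2 : 1 + (c / (ρ * w)) ^ 2 = 4 * (w ^ 2 - 1) / w ^ 2 := by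
      rw [div_pow, mul_pow, e2, hc]; field_simp; ring
    have a3 : (1 * (ρ * w) - c * (ρ * (c / 3 / (2 * w)))) / (ρ * w) ^ 2 = 4 / (3 * ρ * w ^ 3) := by
      field_simp; linear_combination (-1 : ℝ) * hc
    rw [a1, a2, a3]
    have : w + 1 ≠ 0 := by linarith
    have : w - 1 ≠ 0 := by linarith
    have : 1 + w ≠ 0 := by linarith
    rw [show w ^ 2 - 1 = (w - 1) * (1 + w) by ring]
    field_simp
    ring
  · refine Continuous.continuousOn (Continuous.add ?_ (by fun_prop))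
    unfold G
    refine Continuous.div (by fun_prop) (by fun_prop) fun c => ?_
    have := Real.sqrt_pos.2 (hq c)
    positivity
  · intro c hc
    have h3 : 0 ≤ 1 - c ^ 2 := by nlinarith [hc.1, hc.2]
    have := G_nonneg (4 / 3 + c ^ 2 / 6)
    positivity

lemma sig_ge : 775 / 1000 ≤ sig := by
  have h0 : sin (arccos (1 / 3) - π / 3) = (2 * √2 - √3) / 6 := by
    rw [sin_sub, sin_arccos, cos_arccos (by norm_num) (by norm_num), cos_pi_div_three,
      sin_pi_div_three]
    have : √(1 - (1 / 3) ^ 2) = 2 * √2 / 3 := by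
      rw [Real.sqrt_eq_iff_mul_self_eq (by norm_num) (by positivity)]
      nlinarith [Real.sq_sqrt (show (0 : ℝ) ≤ 2 by norm_num)]
    rw [this]; ring
  have h1 : π / 3 ≤ arccos (1 / 3) := by
    rw [← arccos_cos (x := π / 3) (by positivity) (by linarith [pi_pos]), cos_pi_div_three]
    exact arccos_le_arccos (by norm_num)
  have h2 := sin_le (sub_nonneg.2 h1)
  have h3 : 1414213 / 1000000 ≤ √2 := Real.le_sqrt_of_sq_le (by norm_num)
  have h4 : √3 ≤ 1732051 / 1000000 := Real.sqrt_le_iff.2 (by norm_num)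
  have h5 : 424264 / 100000 ≤ √18 := Real.le_sqrt_of_sq_le (by norm_num)
  unfold sig
  nlinarith

lemma sig_le : sig ≤ 81 / 100 := by
  have h := lev2 (le_refl 0)
  have h1 : ∫⁻ c in Ioo (0 : ℝ) 1, ENNReal.ofReal (G (4 / 3 + c ^ 2 / 6) +
      ((1 - c ^ 2) * (4 * 0 / 9) + c ^ 2 * (3 * 0 / 4)) / 2) ≤
      ∫⁻ _ in Ioo (0 : ℝ) 1, ENNReal.ofReal (81 / 100) := by
    refine lintegral_mono fun c => ENNReal.ofReal_le_ofReal ?_
    have h2 : G (4 / 3 + c ^ 2 / 6) ≤ G (4 / 3) := G_anti (by norm_num) (by nlinarith [sq_nonneg c])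
    have h3 : 115 / 100 ≤ √(4 / 3) := Real.le_sqrt_of_sq_le (by norm_num)
    have h4 : G (4 / 3) ≤ 81 / 100 := by
      unfold G
      rw [div_le_iff₀ (by positivity)]
      nlinarith
    linarith
  rw [h, setLIntegral_const, Real.volume_Ioo] at h1
  simp only [sub_zero, ENNReal.ofReal_one, mul_one, mul_zero, add_zero] at h1
  exact (ENNReal.ofReal_le_ofReal_iff (by norm_num)).1 h1

end Pool.Agent.Lib.MP_1e5ad7_co.R
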