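import Pool.Agent.Lib.MP_1e5ad7_co.R.Local

/-! Summing the local bounds. -/

set_option autoImplicit false

open MeasureTheory Set Real Function
open scoped ENNReal

namespace Pool.Agent.Lib.MP_1e5ad7_co.R

lemma cap_pt {t a η u t₃ z g : ℝ} (ht : t ^ 2 = 1 + a ^ 2) (t1 : 1 ≤ t) (a0 : 0 ≤ a) (η1 : 1 ≤ η)
    (u0 : 0 < u) (hut : u ^ 2 * (1 - t₃ ^ 2) = 1)
    (hg : g = u ^ 2 * (t₃ ^ 2 - (η / (t + a) / u - 1) ^ 2)) (g0 : 0 < g)
    (hz : 1 - 2 * g / η ^ 2 < z) : (η + η⁻¹) / 2 * t - (η - η⁻¹) / 2 * (a * z) < u := by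
  have η0 : 0 < η := by linarith
  have κ0 : 0 < t + a := by linarith
  have i0 : 0 < η⁻¹ := inv_pos.2 η0
  have i1 : η⁻¹ ≤ 1 := inv_le_one_of_one_le₀ η1
  have at' : a < t := (abs_lt_of_sq_lt_sq' (by linarith) (by linarith)).2
  have b1 : (η - η⁻¹) / 2 * a < η * (t + a) / 4 := by nlinarith [mul_nonneg i0.le a0]
  have b0 : 0 ≤ (η - η⁻¹) / 2 * a := mul_nonneg (by linarith) a0
  have b2 := mul_le_mul_of_nonneg_left hz.le b0
  have b3 := mul_lt_mul_of_pos_right b1 (by positivity : 0 < 2 * g / η ^ 2)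
  have e1 : t - a = (t + a)⁻¹ := eq_inv_of_mul_eq_one_left (by linarith)
  have e2 : (η + η⁻¹) / 2 * t - (η - η⁻¹) / 2 * a = (η * (t + a)⁻¹ + η⁻¹ * (t + a)) / 2 := by
    rw [← e1]; ring
  have e3 : g = 2 * u * (η / (t + a)) - (η / (t + a)) ^ 2 - 1 := by
    have e0 : u * (η / (t + a) / u) = η / (t + a) := mul_div_cancel₀ _ u0.ne'
    rw [hg, ← e0, mul_div_cancel_left₀ _ u0.ne']
    linear_combination (-1 : ℝ) * hut
  have e4 : (η * (t + a)⁻¹ + η⁻¹ * (t + a)) / 2 + η * (t + a) / 4 * (2 * g / η ^ 2) = u := by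
    rw [e3]; field_simp; ring
  linarith

theorem caps {S e b t₁ t₂ t₃ d Φ : ℝ} (P : Par S e b t₁ t₂ t₃ d Φ) {ι : Type} [Fintype ι]
    {t : ι → ℝ} {x : ι → E3} (h0 : ∀ j, 0 ≤ t j) (ht : ∀ j, t j ^ 2 = 1 + ‖x j‖ ^ 2)
    (hsep : ∀ j k, j ≠ k → 1 + 2 * S ≤ t j * t k - inner ℝ (x j) (x k))
    {E η : ℝ} (E1 : 1 ≤ E) (hE : ∀ j, t j ≤ E) (hη : η * e = 2 * E) :
    ∑ i, max 0 (t₃ ^ 2 - (η / (t i + ‖x i‖) / (e + b) - 1) ^ 2) ≤ η ^ 2 / (e + b) ^ 2 := by
  obtain ⟨S0, e0, e1, b0, hb, hu, -, -, p3, -, -, q3, r3, -, -, -, -, -⟩ := P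
  have u0 : 0 < e + b := by linarith
  have hut : (e + b) ^ 2 * (1 - t₃ ^ 2) = 1 := by rw [hu]; linarith
  have η1 : 1 ≤ η := by nlinarith
  have η0 : 0 < η := by linarith
  choose n hn hxn using fun i => exists_unit (x i)
  set g : ι → ℝ := fun i => (e + b) ^ 2 *
    max 0 (t₃ ^ 2 - (η / (t i + ‖x i‖) / (e + b) - 1) ^ 2) with hg
  have g0 : ∀ i, 0 ≤ g i := fun i => mul_nonneg (sq_nonneg _) (le_max_left _ _)
  have g1 : ∀ i, g i ≤ η ^ 2 := by
    intro i
    have a1 : max 0 (t₃ ^ 2 - (η / (t i + ‖x i‖) / (e + b) - 1) ^ 2) ≤ 1 - t₃ ^ 2 :=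
      max_le (by nlinarith) (by nlinarith [sq_nonneg (η / (t i + ‖x i‖) / (e + b) - 1)])
    have a2 := mul_le_mul_of_nonneg_left a1 (sq_nonneg (e + b))
    simp only [hg]
    nlinarith
  set K : ι → Set E3 := fun i => {k | ‖k‖ < 1 ∧ (1 - 2 * g i / η ^ 2) * ‖k‖ < inner ℝ (n i) k}
    with hK
  have hKv : ∀ i, volume (K i) = ENNReal.ofReal (4 * π / 3 / η ^ 2 * g i) := by
    intro i
    have a1 : g i / η ^ 2 ≤ 1 := (div_le_one (by positivity)).2 (g1 i)
    have a2 : 0 ≤ g i / η ^ 2 := div_nonneg (g0 i) (by positivity)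
    rw [hK, cone_vol (hn i) (by rw [mul_div_assoc]; linarith) (by rw [mul_div_assoc]; linarith)
      one_pos]
    congr 1; ring
  have i0 : 0 < η⁻¹ := inv_pos.2 η0
  have i1 : η⁻¹ ≤ 1 := inv_le_one_of_one_le₀ η1
  have hin : ∀ i, ∀ k ∈ K i, 0 < ‖k‖ ∧ (η + η⁻¹) / 2 * t i -
      inner ℝ (((η - η⁻¹) / 2 / ‖k‖) • k) (x i) < e + b := by
    rintro i k ⟨-, p⟩
    have k0 : 0 < ‖k‖ := norm_pos_iff.2 fun r => by simp [r] at p
    have a1 := real_inner_le_norm (n i) k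
    rw [hn, one_mul] at a1
    have a2 : 0 < g i := by
      have : 1 - 2 * g i / η ^ 2 < 1 := lt_of_mul_lt_mul_right (by linarith) k0.le
      have h2 : 0 < 2 * g i / η ^ 2 := by linarith
      linarith [(div_pos_iff_of_pos_right (by positivity : 0 < η ^ 2)).1 h2]
    have a3 : g i = (e + b) ^ 2 * (t₃ ^ 2 - (η / (t i + ‖x i‖) / (e + b) - 1) ^ 2) := by
      simp only [hg] at a2 ⊢
      rcases le_total 0 (t₃ ^ 2 - (η / (t i + ‖x i‖) / (e + b) - 1) ^ 2) with r | r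
      · rw [max_eq_right r]
      · rw [max_eq_left r] at a2; simp at a2
    have a4 := cap_pt (ht i) (one_le_of_hyp (h0 i) (ht i)) (norm_nonneg _) η1 u0 hut a3 a2
      ((lt_div_iff₀ k0).2 p)
    refine ⟨k0, lt_of_eq_of_lt ?_ a4⟩
    have k5 : inner ℝ k (x i) = ‖x i‖ * inner ℝ (n i) k := by
      conv_lhs => rw [hxn i]
      rw [real_inner_smul_right, real_inner_comm]
    rw [real_inner_smul_left, k5]
    ring
  have hdis : Pairwise (Disjoint on K) := by
    intro i j hij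
    refine Set.disjoint_left.2 fun k p q => ?_
    obtain ⟨k0, a1⟩ := hin i k p
    have := wall (c₀ := 1) (c := 0) (y₀ := (η + η⁻¹) / 2) (y := ((η - η⁻¹) / 2 / ‖k‖) • k)
      (E := E) zero_le_one (by simp) (by positivity) (by
        rw [norm_smul, Real.norm_eq_abs, mul_pow, sq_abs]
        field_simp
        ring) (h0 i) (ht i) (h0 j) (ht j) (by simpa using hE i) (by simpa using hE j)
      (by rw [inner_zero_right]; nlinarith) e1 b0 a1.le (hin j k q).2
    linarith [hsep i j hij]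
  have hKm : ∀ i, MeasurableSet (K i) := fun i => by
    simp only [hK, ofPred_and]
    exact (measurableSet_lt (by fun_prop) (by fun_prop)).inter
      (measurableSet_lt (by fun_prop) (by fun_prop))
  have h1 : ∑ i, volume (K i) ≤ volume (Metric.ball (0 : E3) 1) := by
    rw [← tsum_fintype (L := SummationFilter.unconditional ι), ← measure_iUnion hdis hKm]
    exact measure_mono (iUnion_subset fun i k p => mem_ball_zero_iff.2 p.1)
  simp only [hKv] at h1
  rw [← ENNReal.ofReal_sum_of_nonneg (fun i _ => mul_nonneg (by positivity) (g0 i)),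
    EuclideanSpace.volume_ball_fin_three, ENNReal.ofReal_one, one_pow, one_mul,
    ENNReal.ofReal_le_ofReal_iff (by positivity), ← Finset.mul_sum] at h1
  simp only [hg] at h1
  rw [← Finset.mul_sum, div_mul_eq_mul_div, div_le_iff₀ (by positivity)] at h1
  rw [le_div_iff₀ (by positivity)]
  refine le_of_mul_le_mul_left ?_ (by positivity : 0 < 4 * π / 3)
  linarith

theorem glob {S e b t₁ t₂ t₃ d Φ : ℝ} (P : Par S e b t₁ t₂ t₃ d Φ) {ι : Type} [Fintype ι]
    {t : ι → ℝ} {x : ι → E3} (h0 : ∀ j, 0 ≤ t j) (ht : ∀ j, t j ^ 2 = 1 + ‖x j‖ ^ 2)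
    (hsep : ∀ j k, j ≠ k → 1 + 2 * S ≤ t j * t k - inner ℝ (x j) (x k))
    {E η : ℝ} (E1 : 1 ≤ E) (hE : ∀ j, t j ≤ E) (hη : η * e = 2 * E) :
    Fintype.card ι * (2 * π * (t₁ / (1 - t₁ ^ 2) - (log (1 + t₁) - log (1 - t₁)) / 2)) ≤
      d * (2 * π * (η / 2 + 3) ^ 2) + (1 + S) ^ 2 * (π / 2 * Φ) * (η ^ 2 / (e + b) ^ 2) := by
  classical
  have hcap := caps P h0 ht hsep E1 hE hη
  obtain ⟨h12, h23⟩ := P.ord
  have r3 := P.r3
  have d0 := P.d0
  have Φ0 := P.Φ0
  have η0 : 0 < η := (mul_pos_iff_of_pos_right P.e0).1 (by linarith)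
  set M := η / 2 + 3 with hM
  have M3 : 3 ≤ M := by linarith
  have Mi : (M ^ 2)⁻¹ ≤ 1 / 9 := by
    rw [one_div]; exact inv_anti₀ (by norm_num) (by nlinarith)
  have Mp : 0 < (M ^ 2)⁻¹ := by positivity
  set ρ := √(1 - (M ^ 2)⁻¹) with hρ
  have ρ2 : ρ ^ 2 = 1 - (M ^ 2)⁻¹ := Real.sq_sqrt (by linarith)
  have ρ0 : 0 < ρ := Real.sqrt_pos.2 (by linarith)
  have ρ1 : ρ < 1 := by nlinarith
  set V : ι → Set E3 := fun i => Metric.ball 0 ρ ∩
    {K | ∀ j, j ≠ i → t i - inner ℝ (x i) K < t j - inner ℝ (x j) K} with hV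
  have hVm : ∀ i, MeasurableSet (V i) := by
    intro i
    simp only [hV, ofPred_forall]
    exact Metric.isOpen_ball.measurableSet.inter (.iInter fun k => .iInter fun _ =>
      measurableSet_lt (by fun_prop) (by fun_prop))
  have hdis : Pairwise (Disjoint on V) := fun i j hij =>
    Set.disjoint_left.2 fun k p q => lt_asymm (p.2 j hij.symm) (q.2 i hij)
  have h1 : ∀ i, ∫⁻ k in Metric.ball (0 : E3) t₁, wt k ≤ ENNReal.ofReal d * (∫⁻ k in V i, wt k) +
      ENNReal.ofReal ((1 + S) ^ 2 * (π / 2 * Φ) *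
        max 0 (t₃ ^ 2 - (η / (t i + ‖x i‖) / (e + b) - 1) ^ 2)) := by
    intro i
    have hb := fun j => boost_hyp (h0 i) (ht i) (h0 j) (ht j)
    refine (loc P (ι := {j // j ≠ i}) (T := fun j => t i * t j.1 - inner ℝ (x i) (x j.1))
      (Y := fun j => x j.1 + (inner ℝ (x i) (x j.1) / (1 + t i) - t j.1) • x i)
      (fun j => (hb j.1).1) (fun j => (hb j.1).2) (fun j => hsep i j.1 j.2.symm)
      (fun j k hjk => ?_) (h0 i) (ht i) (hE i) (fun j => ?_) hη).trans ?_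
    · rw [boost_inv (h0 i) (ht i)]
      exact hsep _ _ fun r => hjk (Subtype.ext r)
    · refine le_of_eq_of_le ?_ (hE j.1)
      have a1 : 1 + t i ≠ 0 := by linarith [h0 i]
      have a2 : inner ℝ (x i) (x i) = t i ^ 2 - 1 := by
        rw [real_inner_self_eq_norm_sq]; linarith [ht i]
      simp only [inner_add_right, real_inner_smul_right, a2]
      field_simp
      ring
    refine add_le_add_left (mul_le_mul_right ?_ _) _
    rw [← mv_wt (h0 i) (ht i) ?_ (fun k p => by linarith [p.1])]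
    · refine lintegral_mono_set ?_
      rintro _ ⟨k, ⟨p1, p2, p3⟩, rfl⟩
      have hd := den_pos (h0 i) (ht i) (k := k) (by linarith)
      refine ⟨mem_ball_zero_iff.2 (abs_lt_of_sq_lt_sq' ?_ ρ0.le).2, fun j hj => ?_⟩
      · have a1 := mv_norm (h0 i) (ht i) hd
        have a2 : 0 < 1 - ‖k‖ ^ 2 := by nlinarith [norm_nonneg k]
        have a3 : (M ^ 2)⁻¹ < (1 - ‖k‖ ^ 2) / (t i + inner ℝ (x i) k) ^ 2 := by
          rw [lt_div_iff₀ (by positivity), inv_mul_lt_iff₀ (by positivity)]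
          exact p3.trans_lt (mul_lt_mul_of_pos_right (by nlinarith) a2)
        linarith
      · rw [mv_self (h0 i) (ht i) hd, mv_inner (h0 i) hd]
        exact lt_mul_of_one_lt_right (inv_pos.2 hd) (by linarith [p2 ⟨j, hj⟩])
    · simp only [ofPred_and, ofPred_forall]
      exact (measurableSet_lt (by fun_prop) (by fun_prop)).inter
        ((MeasurableSet.iInter fun k => measurableSet_lt (by fun_prop) (by fun_prop)).inter
          (measurableSet_le (by fun_prop) (by fun_prop)))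
  have h2 : ∑ i, ∫⁻ k in V i, wt k ≤ ENNReal.ofReal (2 * π * M ^ 2) := by
    rw [← tsum_fintype (L := SummationFilter.unconditional ι), ← lintegral_iUnion hVm hdis]
    refine (lintegral_mono_set (iUnion_subset fun i => inter_subset_left)).trans ?_
    rw [ball_wt ρ0 ρ1]
    refine ENNReal.ofReal_le_ofReal (mul_le_mul_of_nonneg_left ?_ (by positivity))
    have a1 : log (1 - ρ) ≤ log (1 + ρ) := log_le_log (by linarith) (by linarith)
    have a2 : ρ / (1 - ρ ^ 2) ≤ M ^ 2 := by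
      rw [ρ2, sub_sub_cancel, div_inv_eq_mul]; nlinarith
    linarith
  have h3 := Finset.sum_le_sum fun i (_ : i ∈ Finset.univ) => h1 i
  have W0 : 0 ≤ (1 + S) ^ 2 * (π / 2 * Φ) := by positivity
  rw [Finset.sum_add_distrib, ← Finset.mul_sum, ← ENNReal.ofReal_sum_of_nonneg
    (fun i _ => mul_nonneg W0 (le_max_left _ _)), ← Finset.mul_sum, Finset.sum_const,
    ball_wt P.p1 (by linarith), Finset.card_univ, nsmul_eq_mul, ← ENNReal.ofReal_natCast,
    ← ENNReal.ofReal_mul (Nat.cast_nonneg _)] at h3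
  have h4 := h3.trans (add_le_add (mul_le_mul_right h2 _)
    (ENNReal.ofReal_le_ofReal (mul_le_mul_of_nonneg_left hcap W0)))
  rwa [← ENNReal.ofReal_mul d0, ← ENNReal.ofReal_add (by positivity) (by positivity),
    ENNReal.ofReal_le_ofReal_iff (by positivity)] at h4

end Pool.Agent.Lib.MP_1e5ad7_co.R
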