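import Pool.Agent.Lib.MP_1e5ad7_co.R.Wall

/-! The bound for one ball, in the chart centred at it. -/

set_option autoImplicit false

open MeasureTheory Set Real Function
open scoped ENNReal

namespace Pool.Agent.Lib.MP_1e5ad7_co.R

/-- the numbers attached to one radius -/
structure Par (S e b t₁ t₂ t₃ d Φ : ℝ) : Prop where
  S0 : 0 < S
  e0 : 0 < e
  e1 : e < 1
  b0 : 0 ≤ b
  hb : b ^ 2 = S / 2
  hu : (e + b) ^ 2 = 1 + 3 * S / 2
  p1 : 0 < t₁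
  p2 : 0 < t₂
  p3 : 0 < t₃
  q1 : t₁ ^ 2 * (1 + S) = S
  q2 : t₂ ^ 2 * (1 + 4 * S / 3) = 4 * S / 3
  q3 : t₃ ^ 2 * (1 + 3 * S / 2) = 3 * S / 2
  r3 : t₃ ≤ 9 / 40
  d0 : 0 ≤ d
  d1 : d ≤ 1
  hd : ∫⁻ c in Ioo (0 : ℝ) 1,
    ENNReal.ofReal (G (((1 - c ^ 2) * t₂ ^ 2 + c ^ 2 * t₃ ^ 2) / t₁ ^ 2)) ≤ ENNReal.ofReal d
  Φ0 : 0 ≤ Φ
  hΦ : ∀ h, 1 ≤ (1 + h) * (e + b) * e → h ≤ t₃ → 0 < h ∧ 2 * π / 3 * t₁ ^ 3 * (1 - h / t₃) -
    d * (π / 3 * h * (t₃ ^ 2 - h ^ 2) + π * (23 / 100) * (t₃ ^ 2 - h ^ 2) ^ 2) ≤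
      π / 2 * Φ * (t₃ ^ 2 - h ^ 2)

lemma equi {ι : Type} {a : ℝ} {T : ι → ℝ} {Y : ι → E3} (h0 : ∀ j, 0 ≤ T j)
    (hT : ∀ j, T j ^ 2 = 1 + ‖Y j‖ ^ 2) (ha : ∀ j, a ≤ T j)
    (hsep : ∀ j k, j ≠ k → a ≤ T j * T k - inner ℝ (Y j) (Y k)) (s : Finset ι) {y : E3}
    (hy : ‖y‖ < 1) (hs : ∀ j ∈ s, inner ℝ (Y j) y = T j - 1) :
    (a * (s.card + 1) - (a - 1)) * (1 - ‖y‖ ^ 2) ≤ s.card + 1 := by
  have hq : 0 < 1 - ‖y‖ ^ 2 := by nlinarith [norm_nonneg y]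
  set p := (√(1 - ‖y‖ ^ 2))⁻¹ with hp
  have p0 : 0 < p := inv_pos.2 (Real.sqrt_pos.2 hq)
  have p2 : p ^ 2 * (1 - ‖y‖ ^ 2) = 1 := by
    rw [hp, inv_pow, Real.sq_sqrt hq.le, inv_mul_cancel₀ hq.ne']
  have h := (blich (ι := Option s) a (fun o => o.elim 1 fun j => T j.1)
    (fun o => o.elim 0 fun j => Y j.1) (by rintro (_ | j) <;> simp [h0])
    (by rintro (_ | j) <;> simp [hT]) (by
      rintro (_ | j) (_ | k) hne
      · exact absurd rfl hne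
      · simpa using ha k.1
      · simpa using ha j.1
      · exact hsep j.1 k.1 fun e => hne (by rw [Subtype.ext e])) p (p • y) p0.le (by
      rw [norm_smul, Real.norm_of_nonneg p0.le]; linarith) (fun _ => 1) (fun _ => zero_le_one)).2
  have e : ∀ o : Option s, 1 * (p * (o.elim 1 fun j => T j.1) -
      inner ℝ (p • y) (o.elim 0 fun j => Y j.1)) = p := by
    rintro (_ | j)
    · simp
    · simp only [Option.elim, real_inner_smul_left, real_inner_comm (Y j.1) y, hs j.1 j.2]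
      ring
  simp only [e, Finset.sum_const, Finset.card_univ, Fintype.card_option, Fintype.card_coe,
    nsmul_eq_mul, one_pow, mul_one] at h
  push_cast at h
  have m0 : (0 : ℝ) < s.card + 1 := by positivity
  refine le_of_mul_le_mul_left ?_ m0
  have := mul_le_mul_of_nonneg_right h hq.le
  nlinarith

lemma far {c₀ η q h u t₃ : ℝ} {c n k : E3} (hn : ‖n‖ = 1) (hcn : c = ‖c‖ • n)
    (hc : c₀ ^ 2 = 1 + ‖c‖ ^ 2) (c1 : 1 ≤ c₀) (c2 : ‖c‖ ≤ c₀) (r1 : ‖k‖ < t₃) (r3 : t₃ ≤ 9 / 40)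
    (g0 : 0 < h) (u1 : 1 ≤ u) (g2 : (1 + h) * u ≤ q) (qκ : q * (c₀ + ‖c‖) = η)
    (r4 : (1 + inner ℝ n k) ^ 2 ≤ ((1 + h) * u) ^ 2 * (1 - ‖k‖ ^ 2)) :
    (c₀ + inner ℝ c k) ^ 2 ≤ (η / 2 + 2) ^ 2 * (1 - ‖k‖ ^ 2) := by
  have c3 := norm_nonneg c
  have κ0 : 0 < c₀ + ‖c‖ := by linarith
  have a0 : 1 / 4 ≤ 1 - ‖k‖ ^ 2 := by nlinarith [norm_nonneg k]
  have a1 : 1 / 2 ≤ √(1 - ‖k‖ ^ 2) := Real.le_sqrt_of_sq_le (by linarith)
  have a2 := Real.sq_sqrt (by linarith : 0 ≤ 1 - ‖k‖ ^ 2)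
  rw [← a2, ← mul_pow] at r4 ⊢
  set p := √(1 - ‖k‖ ^ 2)
  have a3 := (abs_le_of_sq_le_sq' r4 (by positivity)).2
  have a4 := abs_real_inner_le_norm n k
  rw [hn, one_mul, abs_le] at a4
  have k5 : inner ℝ c k = ‖c‖ * inner ℝ n k := by
    conv_lhs => rw [hcn]
    rw [real_inner_smul_left]
  rw [k5]
  refine pow_le_pow_left₀ (by nlinarith) ?_ 2
  have a5 : c₀ - ‖c‖ ≤ 1 := by nlinarith
  have a6 : 1 + inner ℝ n k ≤ q * p := a3.trans (mul_le_mul_of_nonneg_right g2 (by linarith))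
  have a7 := mul_le_mul_of_nonneg_left a6 κ0.le
  have a8 : (c₀ - ‖c‖) * (1 - inner ℝ n k) ≤ 1 * 2 :=
    mul_le_mul a5 (by linarith) (by linarith) zero_le_one
  have a9 : (c₀ + ‖c‖) * (q * p) = η * p := by rw [← qκ]; ring
  nlinarith

lemma low0 {S m t x : ℝ} (S0 : 0 < S) (m0 : 0 ≤ m) (x0 : 0 ≤ x) (hx : x < t)
    (r1 : ((1 + 2 * S) * (m + 1) - 2 * S) * (1 - t ^ 2) = m + 1)
    (a1 : ((1 + 2 * S) * (m + 1) - (1 + 2 * S - 1)) * (1 - x ^ 2) ≤ m + 1) : False := by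
  have a3 : x ^ 2 < t ^ 2 := by nlinarith
  nlinarith [mul_nonneg S0.le m0]

lemma Par.ord {S e b t₁ t₂ t₃ d Φ : ℝ} (P : Par S e b t₁ t₂ t₃ d Φ) : t₁ < t₂ ∧ t₂ ≤ t₃ := by
  obtain ⟨S0, -, -, -, -, -, p1, p2, p3, q1, q2, q3, -, -, -, -, -, -⟩ := P
  exact ⟨(abs_lt_of_sq_lt_sq' (by nlinarith [mul_pos S0 S0, sq_nonneg t₂]) p2.le).2,
    (abs_le_of_sq_le_sq' (by nlinarith [mul_pos S0 S0, sq_nonneg t₃]) p3.le).2⟩

theorem loc {S e b t₁ t₂ t₃ d Φ : ℝ} (P : Par S e b t₁ t₂ t₃ d Φ) {ι : Type} [Fintype ι]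
    {T : ι → ℝ} {Y : ι → E3} (h0 : ∀ j, 0 ≤ T j) (hT : ∀ j, T j ^ 2 = 1 + ‖Y j‖ ^ 2)
    (ha : ∀ j, 1 + 2 * S ≤ T j)
    (hsep : ∀ j k, j ≠ k → 1 + 2 * S ≤ T j * T k - inner ℝ (Y j) (Y k))
    {c₀ E η : ℝ} {c : E3} (hc0 : 0 ≤ c₀) (hc : c₀ ^ 2 = 1 + ‖c‖ ^ 2) (hE : c₀ ≤ E)
    (hE' : ∀ j, c₀ * T j + inner ℝ c (Y j) ≤ E) (hη : η * e = 2 * E) :
    ∫⁻ k in Metric.ball (0 : E3) t₁, wt k ≤ ENNReal.ofReal d *
      (∫⁻ k in {k : E3 | ‖k‖ < t₃ ∧ (∀ j, inner ℝ (Y j) k < T j - 1) ∧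
        (c₀ + inner ℝ c k) ^ 2 ≤ (η / 2 + 2) ^ 2 * (1 - ‖k‖ ^ 2)}, wt k) +
      ENNReal.ofReal ((1 + S) ^ 2 * (π / 2 * Φ) *
        max 0 (t₃ ^ 2 - (η / (c₀ + ‖c‖) / (e + b) - 1) ^ 2)) := by
  classical
  obtain ⟨h12, h23⟩ := P.ord
  obtain ⟨S0, e0, e1, b0, hb, hu, p1, p2, p3, q1, q2, q3, r3, d0, d1, hd, Φ0, hΦ⟩ := P
  set u := e + b with hud
  have u1 : 1 ≤ u := (abs_le_of_sq_le_sq' (by linarith) (by linarith)).2
  have hut : u ^ 2 * (1 - t₃ ^ 2) = 1 := by rw [hu]; linarith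
  obtain ⟨n, hn, hcn⟩ := exists_unit c
  have c1 := one_le_of_hyp hc0 hc
  have c2 := norm_le_of_hyp hc0 hc
  have c3 := norm_nonneg c
  set κ := c₀ + ‖c‖ with hκ
  have κ0 : 0 < κ := by linarith
  have η0 : 0 < η := (mul_pos_iff_of_pos_right e0).1 (by linarith)
  set q := η / κ with hq
  have qκ : q * κ = η := div_mul_cancel₀ _ κ0.ne'
  have qe : 1 ≤ q * e := by
    rw [hq, div_mul_eq_mul_div, one_le_div κ0]; linarith
  have qu : (1 + (q / u - 1)) * u = q := by field_simp; ring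
  obtain ⟨h, g0, g1, g2, g3, g4, g5⟩ : ∃ h, 0 < h ∧ h ≤ t₃ ∧ (1 + h) * u ≤ q ∧
      (h < t₃ → q ≤ (1 + h) * u) ∧ 2 * π / 3 * t₁ ^ 3 * (1 - h / t₃) -
        d * (π / 3 * h * (t₃ ^ 2 - h ^ 2) + π * (23 / 100) * (t₃ ^ 2 - h ^ 2) ^ 2) ≤
          π / 2 * Φ * (t₃ ^ 2 - h ^ 2) ∧ t₃ ^ 2 - h ^ 2 ≤ max 0 (t₃ ^ 2 - (q / u - 1) ^ 2) := by
    rcases le_total (q / u - 1) t₃ with r | r
    · obtain ⟨r1, r2⟩ := hΦ _ (by rw [qu]; exact qe) r
      exact ⟨_, r1, r, qu.le, fun _ => qu.ge, r2, le_max_right _ _⟩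
    · refine ⟨t₃, p3, le_rfl, qu ▸ mul_le_mul_of_nonneg_right (by linarith) (by linarith),
        fun r => absurd r (lt_irrefl _), ?_, ?_⟩
      · simp [div_self p3.ne']
      · simp
  have T1 : ∀ j, 0 < T j - 1 := fun j => by linarith [ha j]
  set v : ι → E3 := fun j => (T j - 1)⁻¹ • Y j with hv
  have hv1 : ∀ j y, inner ℝ (v j) y = 1 → inner ℝ (Y j) y = T j - 1 := by
    intro j y r
    rw [hv, real_inner_smul_left, inv_mul_eq_one₀ (T1 j).ne'] at r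
    exact r.symm
  have hv2 : ∀ j y, inner ℝ (v j) y < 1 ↔ inner ℝ (Y j) y < T j - 1 := by
    intro j y
    rw [hv, real_inner_smul_left, inv_mul_lt_iff₀ (T1 j), mul_one]
  have hinj : Injective v := by
    intro j k r
    by_contra hne
    have a1 : ∀ j, ‖v j‖ ^ 2 * (T j - 1) = T j + 1 := by
      intro j
      have := (T1 j).ne'
      rw [hv, norm_smul, mul_pow, Real.norm_eq_abs, sq_abs,
        show ‖Y j‖ ^ 2 = (T j - 1) * (T j + 1) by linarith [hT j]]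
      field_simp
    have a2 : T j = T k := by
      have b1 := a1 j
      have b2 := a1 k
      rw [← r] at b2
      have b3 : (‖v j‖ ^ 2 - 1) * (T j - T k) = 0 := by linarith
      rcases mul_eq_zero.1 b3 with b4 | b4
      · rw [sub_eq_zero.1 b4] at b1
        linarith
      · linarith
    have a3 : Y j = Y k := by
      simp only [hv, a2] at r
      exact smul_right_injective _ (inv_pos.2 (T1 k)).ne' r
    have := hsep j k hne
    rw [a2, a3, real_inner_self_eq_norm_sq] at this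
    linarith [hT k]
  have hΓ : ∀ y, h / t₃ * ‖y‖ < inner ℝ n y → ∀ j, t₃ * inner ℝ (v j) y ≤ ‖y‖ := by
    intro y hy j
    have a1 := real_inner_le_norm n y
    rw [hn, one_mul] at a1
    have y0 : 0 < ‖y‖ := norm_pos_iff.2 fun r => by simp [r] at hy
    have a2 : h < t₃ := (div_lt_one p3).1 (lt_of_mul_lt_mul_right (by linarith) y0.le)
    by_contra hne
    push Not at hne
    set k : E3 := (t₃ / ‖y‖) • y with hk
    have k1 : ‖k‖ = t₃ := by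
      rw [hk, norm_smul, Real.norm_of_nonneg (by positivity), div_mul_cancel₀ _ y0.ne']
    have k2 : h < inner ℝ n k := by
      rw [hk, real_inner_smul_right, div_mul_eq_mul_div, lt_div_iff₀ y0]
      rw [div_mul_eq_mul_div, div_lt_iff₀ p3] at hy
      linarith
    have k3 : T j - 1 < inner ℝ (Y j) k := by
      have : 1 < inner ℝ (v j) k := by
        rw [hk, real_inner_smul_right, div_mul_eq_mul_div, one_lt_div y0]; exact hne
      rwa [hv, real_inner_smul_left, lt_inv_mul_iff₀ (T1 j), mul_one] at this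
    have k4 := real_inner_le_norm n k
    rw [hn, k1] at k4
    have := wall (c := -c) (y := u • k) (x := 0) (x' := Y j) (y₀ := u) (t := 1) (E := E) hc0
      (by rwa [norm_neg]) (by linarith) (by
        rw [norm_smul, Real.norm_of_nonneg (by linarith), k1]; linarith) zero_le_one (by simp)
      (h0 j) (hT j) (by simpa using hE) (by simpa using hE' j) ?_ e1 b0 (by simp [hud]) ?_
    · rw [inner_zero_left, ← hud] at this
      linarith [ha j]
    · have k5 : inner ℝ k c = ‖c‖ * inner ℝ n k := by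
        conv_lhs => rw [hcn]
        rw [real_inner_smul_right, real_inner_comm]
      rw [inner_neg_right, real_inner_smul_left, k5]
      have k6 : κ * (1 + h) ≤ 2 * (c₀ + ‖c‖ * inner ℝ n k) := by
        have := mul_nonneg (sub_nonneg.2 c2) (by linarith : 0 ≤ 1 - inner ℝ n k)
        have := mul_le_mul_of_nonneg_left k2.le κ0.le
        rw [hκ] at this ⊢
        linarith
      have k7 := mul_le_mul_of_nonneg_right (g3 a2) κ0.le
      have k8 := mul_le_mul_of_nonneg_left k6 (by linarith : 0 ≤ u)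
      have k9 : η ≤ 2 * (u * c₀ + u * (‖c‖ * inner ℝ n k)) := by linarith
      linarith [mul_le_mul_of_nonneg_left k9 e0.le]
    · rw [real_inner_smul_left, real_inner_comm, ← hud]
      linarith [mul_lt_mul_of_pos_left k3 (by linarith : 0 < u)]
  have low : ∀ (s : Finset ι) (t : ℝ) (y : E3), 0 < t → t ≤ t₃ →
      ((1 + 2 * S) * (s.card + 1) - 2 * S) * (1 - t ^ 2) = s.card + 1 →
      (∀ j ∈ s, inner ℝ (v j) y = 1) → t ≤ ‖y‖ := by
    intro s t y t0 t1 r1 r2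
    by_contra hne
    push Not at hne
    exact low0 S0 (Nat.cast_nonneg s.card) (norm_nonneg y) hne r1
      (equi h0 hT ha hsep s (y := y) (by linarith) fun j hj => hv1 j y (r2 j hj))
  have hcell := cell p1 h12 h23 hd v hinj
    (fun j y r => low {j} t₁ y p1 (by linarith)
      (by rw [Finset.card_singleton]; push_cast; linarith)
      (fun i hi => by rw [Finset.mem_singleton.1 hi]; exact r))
    (fun j k hjk y r r' => low {j, k} t₂ y p2 h23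
      (by rw [Finset.card_pair hjk]; push_cast; linarith)
      (by simp only [Finset.mem_insert, Finset.mem_singleton]; rintro i (rfl | rfl) <;> assumption))
    (fun j k l hjk hjl hkl y r r' r'' => low {j, k, l} t₃ y p3 le_rfl
      (by rw [Finset.card_eq_three.2 ⟨j, k, l, hjk, hjl, hkl, rfl⟩]; push_cast; linarith)
      (by simp only [Finset.mem_insert, Finset.mem_singleton]
          rintro i (rfl | rfl | rfl) <;> assumption))
    (Γ := {y | h / t₃ * ‖y‖ < inner ℝ n y}) (measurableSet_lt (by fun_prop) (by fun_prop))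
    (fun x hx y hy r => hy (by
      simp only [mem_ofPred_eq, norm_smul, Real.norm_of_nonneg hx.le, real_inner_smul_right] at r ⊢
      rw [mul_left_comm] at r
      exact lt_of_mul_lt_mul_left r hx.le)) hΓ
  have hdef := defic hn p1 g0 g1 r3 u1 hut hΓ hcell
    (U := {k : E3 | ‖k‖ < t₃ ∧ (∀ j, inner ℝ (Y j) k < T j - 1) ∧
      (c₀ + inner ℝ c k) ^ 2 ≤ (η / 2 + 2) ^ 2 * (1 - ‖k‖ ^ 2)}) (by
    intro k r1 r2 r4
    refine ⟨r1, fun j => (hv2 j k).1 (r2 j), ?_⟩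
    exact far hn hcn hc c1 c2 r1 r3 g0 u1 g2 qκ r4)
  refine (transfer p1 (by linarith) d0 d1 ?_ (fun k r => by linarith [r.1]) hdef).trans ?_
  · simp only [ofPred_and, ofPred_forall]
    exact (measurableSet_lt (by fun_prop) (by fun_prop)).inter
      ((MeasurableSet.iInter fun k => measurableSet_lt (by fun_prop) (by fun_prop)).inter
        (measurableSet_le (by fun_prop) (by fun_prop)))
  · rw [← ENNReal.ofReal_mul (by positivity)]
    refine add_le_add_right (ENNReal.ofReal_le_ofReal ?_) _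
    have a1 : ((1 - t₁ ^ 2) ^ 2)⁻¹ = (1 + S) ^ 2 := by
      rw [← inv_pow]; congr 1
      exact inv_eq_of_mul_eq_one_right (by linarith)
    rw [a1, mul_assoc ((1 + S) ^ 2)]
    refine mul_le_mul_of_nonneg_left (g4.trans ?_) (by positivity)
    exact mul_le_mul_of_nonneg_left g5 (by positivity)

end Pool.Agent.Lib.MP_1e5ad7_co.R
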