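import Pool.Agent.Lib.MP_1e5ad7_co.R.Num

/-! The density bound for small radii. -/

set_option autoImplicit false

open MeasureTheory Set Real Function

namespace Pool.Agent.Lib.MP_1e5ad7_co.R

lemma asym {κ K c V : ℝ} (hK : K < κ) (K0 : 0 ≤ K) (c0 : 0 ≤ c) (V0 : 0 < V) :
    ∃ N : ℕ, 0 < N ∧ ∀ (R : ℝ) (n : ℕ), 0 ≤ R → N ≤ n →
      n * V ≤ K * exp R ^ 2 / 2 + c * exp R → n * V < κ * (sinh (2 * R) - 2 * R) := by
  set y₀ := 2 * (c + 3 * κ) / (κ - K) with hy₀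
  refine ⟨⌈(K * y₀ ^ 2 / 2 + c * y₀) / V⌉₊ + 1, Nat.succ_pos _, fun R n R0 hN h => ?_⟩
  have y1 : 1 ≤ exp R := one_le_exp R0
  rcases le_or_gt (exp R) y₀ with r | r
  · have a1 : (⌈(K * y₀ ^ 2 / 2 + c * y₀) / V⌉₊ : ℝ) + 1 ≤ n := by exact_mod_cast hN
    have a2 : (K * y₀ ^ 2 / 2 + c * y₀) / V < n := by
      linarith [Nat.le_ceil ((K * y₀ ^ 2 / 2 + c * y₀) / V)]
    rw [div_lt_iff₀ V0] at a2
    have a3 := mul_le_mul_of_nonneg_left (pow_le_pow_left₀ (by linarith) r 2) K0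
    have a4 := mul_le_mul_of_nonneg_left r c0
    linarith
  · rw [hy₀, div_lt_iff₀ (by linarith)] at r
    have a1 : exp R ^ 2 / 2 - 3 * exp R ≤ sinh (2 * R) - 2 * R := by
      have b1 : exp (2 * R) = exp R ^ 2 := by rw [← exp_nat_mul]; norm_num
      have b2 : exp (-(2 * R)) ≤ 1 := exp_le_one_iff.mpr (by linarith)
      rw [sinh_eq, b1]
      linarith [add_one_le_exp R]
    have a2 := mul_le_mul_of_nonneg_left a1 (by linarith : 0 ≤ κ)
    have a3 := mul_lt_mul_of_pos_right r (by linarith : 0 < exp R)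
    linarith

lemma sinh_small {r : ℝ} (h : r ≤ 37 / 200) : sinh r ≤ 187 / 1000 := by
  refine (sinh_le_sinh.2 h).trans ?_
  have h1 := Real.exp_bound' (x := 37 / 200) (by norm_num) (by norm_num) (n := 5) (by norm_num)
  have h2 : exp (37 / 200) ≤ 12033 / 10000 := by
    refine h1.trans ?_
    norm_num [Finset.sum_range_succ, Nat.factorial]
  have h3 : (12033 / 10000 : ℝ)⁻¹ ≤ (exp (37 / 200))⁻¹ := inv_anti₀ (exp_pos _) h2
  rw [sinh_eq, exp_neg]
  norm_num at h3 ⊢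
  linarith

theorem small {r : ℝ} (r0 : 0 < r) (r1 : r ≤ 37 / 200) : ∃ N : ℕ, 0 < N ∧
    ∀ (R : ℝ) (n : ℕ) (c : E3) (x : Fin n → E3), r ≤ R → N ≤ n →
      (∀ i j : Fin n, i ≠ j →
        cosh (2 * r) ≤ √(1 + ‖x i‖ ^ 2) * √(1 + ‖x j‖ ^ 2) - inner ℝ (x i) (x j)) →
      (∀ i : Fin n, √(1 + ‖c‖ ^ 2) * √(1 + ‖x i‖ ^ 2) - inner ℝ c (x i) ≤ cosh (R - r)) →
      (n : ℝ) * (sinh (2 * r) - 2 * r) < (sig - r / 4) * (sinh (2 * R) - 2 * R) := by
  have s0 : 0 < sinh r := sinh_pos_iff.2 r0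
  have sr : r < sinh r := self_lt_sinh_iff.2 r0
  have C0 := cosh_pos r
  have hC : cosh r ^ 2 = 1 + sinh r ^ 2 := cosh_sq' r
  have hx : exp (-r) + sinh r = cosh r := by rw [← cosh_sub_sinh]; ring
  obtain ⟨e, b, t₂, t₃, d, Φ, P, hK⟩ := par_ex s0 (sinh_small r1) (t₁ := sinh r / cosh r)
    (x := exp (-r)) (div_pos s0 C0) (by rw [← hC]; field_simp) (exp_pos _).le (by rw [hx, hC])
  have e0 := P.e0
  have e1 := P.e1
  have d0 := P.d0
  have Φ0 := P.Φ0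
  have u0 : 0 < e + b := by linarith [P.b0]
  set K := (d + (1 + sinh r ^ 2) ^ 2 * Φ / (e + b) ^ 2) / e ^ 2 with hKd
  have K0 : 0 ≤ K := by positivity
  have V0 : 0 < sinh (2 * r) - 2 * r := sub_pos.2 (self_lt_sinh_iff.2 (by linarith))
  obtain ⟨N, N0, hN⟩ := asym (κ := sig - r / 4) (K := K * exp (-r) ^ 2) (c := 32 * K)
    (by linarith) (by positivity) (by positivity) V0
  refine ⟨N, N0, fun R n c x hrR hn hsep hin => hN R n (by linarith) hn ?_⟩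
  have hsq : ∀ y : E3, √(1 + ‖y‖ ^ 2) ^ 2 = 1 + ‖y‖ ^ 2 := fun y => Real.sq_sqrt (by positivity)
  have hb := fun i => boost_hyp (Real.sqrt_nonneg _) (hsq c) (Real.sqrt_nonneg _) (hsq (x i))
  have h := glob P (ι := Fin n)
    (t := fun i => √(1 + ‖c‖ ^ 2) * √(1 + ‖x i‖ ^ 2) - inner ℝ c (x i))
    (x := fun i => x i + (inner ℝ c (x i) / (1 + √(1 + ‖c‖ ^ 2)) - √(1 + ‖x i‖ ^ 2)) • c)
    (fun i => (hb i).1) (fun i => (hb i).2) (fun i j hij => by
      rw [boost_inv (Real.sqrt_nonneg _) (hsq c)]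
      refine le_of_eq_of_le ?_ (hsep i j hij)
      rw [cosh_two_mul, hC]; ring) (one_le_cosh (R - r)) hin (η := 2 * cosh (R - r) / e)
    (div_mul_cancel₀ _ e0.ne')
  have a1 : sinh r / cosh r / (1 - (sinh r / cosh r) ^ 2) = sinh r * cosh r := by
    have : 1 - (sinh r / cosh r) ^ 2 = (cosh r ^ 2)⁻¹ := by field_simp; linarith
    rw [this]; field_simp
  have a2 : log (1 + sinh r / cosh r) - log (1 - sinh r / cosh r) = 2 * r := by
    have b1 : 1 + sinh r / cosh r = exp r / cosh r := by rw [← cosh_add_sinh]; field_simp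
    have b2 : 1 - sinh r / cosh r = exp (-r) / cosh r := by rw [← cosh_sub_sinh]; field_simp
    rw [b1, b2, log_div (exp_pos _).ne' C0.ne', log_div (exp_pos _).ne' C0.ne', log_exp, log_exp]
    ring
  rw [a1, a2, Fintype.card_fin] at h
  set X := exp R * exp (-r) with hX
  have y1 : 1 ≤ exp R := one_le_exp (by linarith)
  have x1 : exp (-r) ≤ 1 := exp_le_one_iff.2 (by linarith)
  have x0 := exp_pos (-r)
  have a3 : 2 * cosh (R - r) ≤ X + 1 := by
    have : exp (-(R - r)) ≤ 1 := exp_le_one_iff.2 (by linarith)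
    rw [cosh_eq, hX, ← exp_add, ← sub_eq_add_neg]
    linarith
  have c0 := cosh_pos (R - r)
  have a4 : 2 * cosh (R - r) / e ≤ (X + 7) / e :=
    div_le_div_of_nonneg_right (by linarith) e0.le
  have a5 : 2 * cosh (R - r) / e / 2 + 3 ≤ (X + 7) / e / 2 := by
    have b1 : 6 ≤ 6 / e := by rw [le_div_iff₀ e0]; linarith
    have b2 : (X + 7) / e = (X + 1) / e + 6 / e := by ring
    linarith [div_le_div_of_nonneg_right a3 e0.le]
  have a6 := mul_le_mul_of_nonneg_left (pow_le_pow_left₀ (by positivity) a5 2)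
    (by positivity : 0 ≤ d * (2 * π))
  have a7 := mul_le_mul_of_nonneg_left (pow_le_pow_left₀ (by positivity) a4 2)
    (by positivity : 0 ≤ (1 + sinh r ^ 2) ^ 2 * (π / 2 * Φ) / (e + b) ^ 2)
  have a8 : d * (2 * π) * ((X + 7) / e / 2) ^ 2 + (1 + sinh r ^ 2) ^ 2 * (π / 2 * Φ) /
      (e + b) ^ 2 * ((X + 7) / e) ^ 2 = π * (K / 2 * (X + 7) ^ 2) := by
    rw [hKd]; field_simp
  have a9 : π * (n * (sinh (2 * r) - 2 * r)) ≤ π * (K / 2 * (X + 7) ^ 2) := by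
    rw [← a8, sinh_two_mul]
    have : (1 + sinh r ^ 2) ^ 2 * (π / 2 * Φ) * ((2 * cosh (R - r) / e) ^ 2 / (e + b) ^ 2) =
        (1 + sinh r ^ 2) ^ 2 * (π / 2 * Φ) / (e + b) ^ 2 * (2 * cosh (R - r) / e) ^ 2 := by ring
    linarith
  refine (le_of_mul_le_mul_left a9 pi_pos).trans ?_
  have a10 : X ≤ exp R := mul_le_of_le_one_right (by linarith) x1
  have a11 : (X + 7) ^ 2 ≤ X ^ 2 + 64 * exp R := by linarith
  have a12 := mul_le_mul_of_nonneg_left a11 (by positivity : 0 ≤ K / 2)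
  rw [hX] at a12 ⊢
  linarith

end Pool.Agent.Lib.MP_1e5ad7_co.R
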