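import Pool.Agent.Lib.MP_1e5ad7_co.R.Global

/-! Numerical inequalities for small radii. -/

set_option autoImplicit false

open MeasureTheory Set Real Function
open scoped ENNReal

namespace Pool.Agent.Lib.MP_1e5ad7_co.R

lemma bern {s : ℝ} (h0 : 0 ≤ s) (h1 : s ≤ 187 / 1000) (i j : ℕ) :
    0 ≤ s ^ i * (187 / 1000 - s) ^ j := mul_nonneg (pow_nonneg h0 i) (pow_nonneg (by linarith) j)

lemma polyH {s : ℝ} (h0 : 0 ≤ s) (h1 : s ≤ 187 / 1000) :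
    (1 + s * (0.7068 - 1.03 * s - 0.9 * s ^ 2)) *
      (1 + 1.5 * s ^ 2 - (1 + 0.74 * s ^ 2) * (0.7071 * s)) ≤ 1 := by
  have b := bern h0 h1
  linarith [b 1 5, b 2 4, b 3 3, b 4 2, b 5 1, b 6 0]

lemma polyA {s : ℝ} (h0 : 0 ≤ s) (h1 : s ≤ 187 / 1000) :
    4 / 3 * (1 - 0.48 * s ^ 2) ^ 3 ≤ (0.5645 + 0.3 * s + 0.42 * s ^ 2) *
      (1.2247 * (1 - 0.75 * s ^ 2) *
        (1.2247 * (1 - 0.75 * s ^ 2) + (0.7068 - 1.03 * s - 0.9 * s ^ 2))) := by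
  have b := bern h0 h1
  linarith [b 0 6, b 1 5, b 2 4, b 3 3, b 4 2, b 5 1, b 6 0]

lemma polyB {s : ℝ} (h0 : 0 ≤ s) (h1 : s ≤ 187 / 1000) :
    0.4709 - 0.22 * s - 0.18 * s ^ 2 ≤ 2 / 3 * (0.7068 - 1.03 * s - 0.9 * s ^ 2) +
      0.46 * s * ((1.2247 * (1 - 0.75 * s ^ 2)) ^ 2 - (0.7068 - 1.03 * s - 0.9 * s ^ 2) ^ 2) := by
  have b := bern h0 h1
  linarith [b 0 5, b 1 4, b 2 3, b 3 2, b 4 1, b 5 0]

lemma polyC {s : ℝ} (h0 : 0 ≤ s) (h1 : s ≤ 187 / 1000) :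
    (1 + s ^ 2 / 2 - s) ^ 2 ≤ (1 - 0.585 * s - 0.8 * s ^ 2 + 0.2 * s ^ 3) *
      (1 + 0.74 * s ^ 2 - 0.70711 * s) ^ 2 := by
  have b := bern h0 h1
  linarith [b 1 6, b 2 5, b 3 4, b 4 3, b 5 2, b 6 1, b 7 0]

lemma polyD {s σ : ℝ} (h0 : 0 ≤ s) (h1 : s ≤ 187 / 1000) (h2 : 775 / 1000 ≤ σ)
    (h3 : σ ≤ 81 / 100) :
    (1 - 0.585 * s - 0.8 * s ^ 2 + 0.2 * s ^ 3) * ((σ + 59 / 216 * s ^ 2) + (1 + 0.51 * s ^ 2) *
      (s * (0.5645 + 0.3 * s + 0.42 * s ^ 2 - (σ + 59 / 216 * s ^ 2) *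
        (0.4709 - 0.22 * s - 0.18 * s ^ 2)))) ≤ σ - 0.251 * s := by
  have b := fun i j => mul_nonneg (sub_nonneg.2 h2) (bern h0 h1 i j)
  have c := fun i j => mul_nonneg (sub_nonneg.2 h3) (bern h0 h1 i j)
  linarith [b 1 9, b 2 8, b 3 7, b 4 6, b 5 5, b 6 4, b 7 3, b 8 2, b 9 1, b 10 0,
    c 1 9, c 2 8, c 3 7, c 4 6, c 5 5, c 6 4, c 7 3, c 8 2, c 9 1, c 10 0]

lemma hd_ok {S t₁ t₂ t₃ : ℝ} (S0 : 0 < S) (S1 : S ≤ 35 / 1000) (p1 : 0 < t₁)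
    (q1 : t₁ ^ 2 * (1 + S) = S) (q2 : t₂ ^ 2 * (1 + 4 * S / 3) = 4 * S / 3)
    (q3 : t₃ ^ 2 * (1 + 3 * S / 2) = 3 * S / 2) :
    ∫⁻ c in Ioo (0 : ℝ) 1, ENNReal.ofReal (G (((1 - c ^ 2) * t₂ ^ 2 + c ^ 2 * t₃ ^ 2) / t₁ ^ 2)) ≤
      ENNReal.ofReal (sig + 59 / 216 * S) := by
  have e1 : t₁ ^ 2 = S / (1 + S) := eq_div_of_mul_eq (by positivity) q1
  have e2 : t₂ ^ 2 = 4 * S / 3 / (1 + 4 * S / 3) := eq_div_of_mul_eq (by positivity) q2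
  have e3 : t₃ ^ 2 = 3 * S / 2 / (1 + 3 * S / 2) := eq_div_of_mul_eq (by positivity) q3
  have a2 : (4 / 3 - 4 * S / 9) * t₁ ^ 2 ≤ t₂ ^ 2 := by
    rw [e1, e2, ← mul_div_assoc, div_le_div_iff₀ (by positivity) (by positivity)]
    nlinarith [pow_pos S0 3]
  have a3 : (3 / 2 - 3 * S / 4) * t₁ ^ 2 ≤ t₃ ^ 2 := by
    rw [e1, e3, ← mul_div_assoc, div_le_div_iff₀ (by positivity) (by positivity)]
    nlinarith [pow_pos S0 3]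
  rw [← lev2 S0.le]
  refine setLIntegral_mono' measurableSet_Ioo fun c hc => ENNReal.ofReal_le_ofReal ?_
  have h3 : 0 ≤ 1 - c ^ 2 := by nlinarith [hc.1, hc.2]
  have h4 := sq_nonneg c
  set Δ := (1 - c ^ 2) * (4 * S / 9) + c ^ 2 * (3 * S / 4) with hΔ
  have Δ0 : 0 ≤ Δ := by positivity
  have Δ1 : Δ ≤ 3 * S / 4 := by nlinarith [mul_nonneg h3 S0.le]
  have b1 := G_lip (a := 4 / 3 + c ^ 2 / 6 - Δ) (b := 4 / 3 + c ^ 2 / 6) (by linarith) (by linarith)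
  have b2 := G_anti (a := 4 / 3 + c ^ 2 / 6 - Δ)
    (b := ((1 - c ^ 2) * t₂ ^ 2 + c ^ 2 * t₃ ^ 2) / t₁ ^ 2) (by linarith) (by
      rw [le_div_iff₀ (by positivity), hΔ]
      linarith [mul_le_mul_of_nonneg_left a2 h3, mul_le_mul_of_nonneg_left a3 h4])
  linarith

lemma phi_ok {s u b t₁ t₃ d h : ℝ} (s0 : 0 < s) (s1 : s ≤ 187 / 1000) (u0 : 0 < u)
    (hu : u ^ 2 = 1 + 3 * s ^ 2 / 2) (b0 : 0 ≤ b) (hb : b ^ 2 = s ^ 2 / 2) (p1 : 0 < t₁)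
    (p3 : 0 < t₃) (q1 : t₁ ^ 2 * (1 + s ^ 2) = s ^ 2)
    (q3 : t₃ ^ 2 * (1 + 3 * s ^ 2 / 2) = 3 * s ^ 2 / 2) (r3 : t₃ ≤ 9 / 40) (d0 : 0 ≤ d)
    (h1 : 1 ≤ (1 + h) * u * (u - b)) (hub : 0 < u - b) (h2 : h ≤ t₃) :
    0 < h ∧ 2 * π / 3 * t₁ ^ 3 * (1 - h / t₃) -
      d * (π / 3 * h * (t₃ ^ 2 - h ^ 2) + π * (23 / 100) * (t₃ ^ 2 - h ^ 2) ^ 2) ≤
        π / 2 * (s * (0.5645 + 0.3 * s + 0.42 * s ^ 2 - d * (0.4709 - 0.22 * s - 0.18 * s ^ 2))) *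
          (t₃ ^ 2 - h ^ 2) := by
  have S1 : s ^ 2 ≤ 35 / 1000 := by nlinarith
  have S0 : 0 < s ^ 2 := by positivity
  have a1 : 1 + 0.74 * s ^ 2 ≤ u := (abs_le_of_sq_le_sq' (by nlinarith) u0.le).2
  have a2 : 0.7071 * s ≤ b := (abs_le_of_sq_le_sq' (by nlinarith) b0).2
  set H := 0.7068 - 1.03 * s - 0.9 * s ^ 2 with hH
  have H0 : 0 < H := by rw [hH]; linarith
  have H1 : H ≤ 0.7068 := by rw [hH]; linarith
  have a3 : s * H ≤ h := by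
    have c1 : u * (u - b) ≤ 1 + 1.5 * s ^ 2 - (1 + 0.74 * s ^ 2) * (0.7071 * s) := by
      have := mul_le_mul a1 a2 (by positivity) u0.le
      linarith
    have c2 := (mul_le_mul_of_nonneg_left c1 (by positivity : 0 ≤ 1 + s * H)).trans
      (polyH s0.le s1)
    have c3 : (1 + s * H) * (u * (u - b)) ≤ (1 + h) * (u * (u - b)) := by linarith
    linarith [le_of_mul_le_mul_right c3 (mul_pos u0 hub)]
  have h0 : 0 < h := (mul_pos s0 H0).trans_le a3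
  refine ⟨h0, ?_⟩
  set T := 1.2247 * (1 - 0.75 * s ^ 2) with hT
  have T0 : 1 ≤ T := by rw [hT]; linarith
  have a4 : s * T ≤ t₃ := by
    refine (abs_le_of_sq_le_sq' (le_of_mul_le_mul_right ?_
      (by positivity : 0 < 1 + 3 * s ^ 2 / 2)) p3.le).2
    have c1 : T ^ 2 * (1 + 3 * s ^ 2 / 2) ≤ 3 / 2 := by
      rw [hT]; nlinarith [mul_pos S0 S0]
    rw [q3, mul_pow]
    linarith [mul_le_mul_of_nonneg_left c1 S0.le]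
  have a5 : t₁ ≤ s * (1 - 0.48 * s ^ 2) := by
    refine (abs_le_of_sq_le_sq' (le_of_mul_le_mul_right ?_ (by positivity : 0 < 1 + s ^ 2))
      (mul_nonneg s0.le (by linarith))).2
    have c1 : 1 ≤ (1 - 0.48 * s ^ 2) ^ 2 * (1 + s ^ 2) := by nlinarith [mul_pos S0 S0]
    rw [q1, mul_pow]
    linarith [mul_le_mul_of_nonneg_left c1 S0.le]
  set α := 0.5645 + 0.3 * s + 0.42 * s ^ 2 with hα
  have α0 : 0 < α := by positivity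
  have a6 : 4 / 3 * t₁ ^ 3 ≤ s * α * (t₃ * (t₃ + h)) := by
    have c1 := pow_le_pow_left₀ p1.le a5 3
    have c2 := mul_le_mul_of_nonneg_left (polyA s0.le s1) (pow_pos s0 3).le
    have c3 : s * T * (s * T + s * H) ≤ t₃ * (t₃ + h) :=
      mul_le_mul a4 (by linarith) (by positivity) p3.le
    have c4 := mul_le_mul_of_nonneg_left c3 (mul_pos s0 α0).le
    rw [← hα, ← hT, ← hH] at c2
    rw [mul_pow] at c1
    linarith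
  set β := 0.4709 - 0.22 * s - 0.18 * s ^ 2 with hβ
  have a7 : s * β ≤ 2 / 3 * h + 0.46 * (t₃ ^ 2 - h ^ 2) := by
    have c2 := mul_le_mul_of_nonneg_left (polyB s0.le s1) s0.le
    rw [← hβ, ← hT, ← hH] at c2
    have c3 := pow_le_pow_left₀ (by positivity) a4 2
    have c4 := mul_nonneg (sub_nonneg.2 a3) (by linarith : 0 ≤ 2 / 3 - 0.46 * (h + s * H))
    linarith
  have γ0 : 0 ≤ t₃ ^ 2 - h ^ 2 := sub_nonneg.2 (pow_le_pow_left₀ h0.le h2 2)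
  have a8 : 4 / 3 * t₁ ^ 3 * (1 - h / t₃) ≤ s * α * (t₃ ^ 2 - h ^ 2) := by
    have c1 := mul_le_mul_of_nonneg_right a6 (sub_nonneg.2 ((div_le_one p3).2 h2))
    refine c1.trans (le_of_eq ?_)
    field_simp
    ring
  have a9 := mul_le_mul_of_nonneg_left (mul_le_mul_of_nonneg_right a7 γ0) d0
  have a10 := mul_le_mul_of_nonneg_left (add_le_add a8 a9) (by positivity : 0 ≤ π / 2)
  linarith

theorem par_ex {s : ℝ} (s0 : 0 < s) (s1 : s ≤ 187 / 1000) {t₁ x : ℝ} (p1 : 0 < t₁)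
    (q1 : t₁ ^ 2 * (1 + s ^ 2) = s ^ 2) (x0 : 0 ≤ x) (hx : (x + s) ^ 2 = 1 + s ^ 2) :
    ∃ e b t₂ t₃ d Φ, Par (s ^ 2) e b t₁ t₂ t₃ d Φ ∧
      (d + (1 + s ^ 2) ^ 2 * Φ / (e + b) ^ 2) / e ^ 2 * x ^ 2 ≤ sig - 0.251 * s := by
  have S1 : s ^ 2 ≤ 35 / 1000 := by nlinarith
  have S0 : 0 < s ^ 2 := by positivity
  have σ0 := sig_ge
  have σ1 := sig_le
  obtain ⟨u, u0, hu⟩ : ∃ u : ℝ, 0 < u ∧ u ^ 2 = 1 + 3 * s ^ 2 / 2 :=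
    ⟨√_, Real.sqrt_pos.2 (by positivity), Real.sq_sqrt (by positivity)⟩
  obtain ⟨b, b0, hb⟩ : ∃ b : ℝ, 0 ≤ b ∧ b ^ 2 = s ^ 2 / 2 :=
    ⟨√_, Real.sqrt_nonneg _, Real.sq_sqrt (by positivity)⟩
  obtain ⟨t₂, p2, q2⟩ : ∃ t : ℝ, 0 < t ∧ t ^ 2 * (1 + 4 * s ^ 2 / 3) = 4 * s ^ 2 / 3 :=
    ⟨√(4 * s ^ 2 / 3 / (1 + 4 * s ^ 2 / 3)), Real.sqrt_pos.2 (by positivity), by
      rw [Real.sq_sqrt (by positivity), div_mul_cancel₀ _ (by positivity)]⟩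
  obtain ⟨t₃, p3, q3⟩ : ∃ t : ℝ, 0 < t ∧ t ^ 2 * (1 + 3 * s ^ 2 / 2) = 3 * s ^ 2 / 2 :=
    ⟨√(3 * s ^ 2 / 2 / (1 + 3 * s ^ 2 / 2)), Real.sqrt_pos.2 (by positivity), by
      rw [Real.sq_sqrt (by positivity), div_mul_cancel₀ _ (by positivity)]⟩
  have a1 : 1 + 0.74 * s ^ 2 ≤ u := (abs_le_of_sq_le_sq' (by nlinarith) u0.le).2
  have a2 : 0.7071 * s ≤ b := (abs_le_of_sq_le_sq' (by nlinarith) b0).2
  have a3 : b ≤ 0.70711 * s := (abs_le_of_sq_le_sq' (by nlinarith) (by positivity)).2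
  have a4 : u < 1 + b := (abs_lt_of_sq_lt_sq' (by nlinarith) (by positivity)).2
  have r3 : t₃ ≤ 9 / 40 := (abs_le_of_sq_le_sq' (le_of_mul_le_mul_right (by rw [q3]; linarith)
    (by positivity : 0 < 1 + 3 * s ^ 2 / 2)) (by norm_num)).2
  have e0 : 0 < u - b := by linarith
  have eb : u - b + b = u := by ring
  set d := sig + 59 / 216 * s ^ 2 with hd
  have d0 : 0 ≤ d := by rw [hd]; linarith
  have d1 : d ≤ 82 / 100 := by rw [hd]; linarith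
  set Φ := s * (0.5645 + 0.3 * s + 0.42 * s ^ 2 - d * (0.4709 - 0.22 * s - 0.18 * s ^ 2)) with hΦ
  have Φ0 : 0 ≤ Φ := by
    refine mul_nonneg s0.le ?_
    have := mul_le_mul_of_nonneg_left (by linarith : 0.4709 - 0.22 * s - 0.18 * s ^ 2 ≤ 0.4709) d0
    linarith
  refine ⟨u - b, b, t₂, t₃, d, Φ, ⟨S0, e0, by linarith, b0, hb, by rw [eb, hu], p1, p2, p3, q1,
    q2, q3, r3, d0, by linarith, hd_ok S0 S1 p1 q1 q2 q3, Φ0, fun h h1 h2 =>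
      phi_ok s0 s1 u0 hu b0 hb p1 p3 q1 q3 r3 d0 (by rwa [eb] at h1) e0 h2⟩, ?_⟩
  refine le_trans ?_ (polyD s0.le s1 σ0 σ1)
  rw [← hd, ← hΦ, eb, div_mul_eq_mul_div, mul_div_assoc, mul_comm]
  have c1 : x ≤ 1 + s ^ 2 / 2 - s := by
    have : x + s ≤ 1 + s ^ 2 / 2 := (abs_le_of_sq_le_sq' (by nlinarith) (by positivity)).2
    linarith
  have c0 : 0 ≤ 1 - 0.585 * s - 0.8 * s ^ 2 + 0.2 * s ^ 3 := by linarith [pow_pos s0 3]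
  refine mul_le_mul ?_ (add_le_add_right ?_ _) (by positivity) c0
  · rw [div_le_iff₀ (by positivity)]
    exact ((pow_le_pow_left₀ x0 c1 2).trans (polyC s0.le s1)).trans (mul_le_mul_of_nonneg_left
      (pow_le_pow_left₀ (by linarith) (by linarith) 2) c0)
  · rw [mul_div_right_comm]
    refine mul_le_mul_of_nonneg_right ?_ Φ0
    rw [div_le_iff₀ (by positivity), hu]
    nlinarith

end Pool.Agent.Lib.MP_1e5ad7_co.R
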