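import Pool.Agent.Lib.MP_1e5ad7_co.Arch

/-! Averaging over exit points for a one parameter group of linear dilations. -/

set_option autoImplicit false

open MeasureTheory Set Real
open scoped ENNReal

namespace Pool.Agent.Lib.MP_1e5ad7_co.R

/-- dilation by `c` that fixes the range of the projection `P` -/
noncomputable def dil (P : E3 →ₗ[ℝ] E3) (c : ℝ) : E3 →ₗ[ℝ] E3 := P + c • (LinearMap.id - P)

lemma dil_apply (P : E3 →ₗ[ℝ] E3) (c : ℝ) (y : E3) : dil P c y = P y + c • (y - P y) := rfl

lemma dil_one (P : E3 →ₗ[ℝ] E3) (y : E3) : dil P 1 y = y := by simp [dil_apply]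

lemma dil_P {P : E3 →ₗ[ℝ] E3} (hP : ∀ y, P (P y) = P y) (c : ℝ) (y : E3) :
    P (dil P c y) = P y := by simp [dil_apply, hP]

lemma dil_mul {P : E3 →ₗ[ℝ] E3} (hP : ∀ y, P (P y) = P y) (c c' : ℝ) (y : E3) :
    dil P c (dil P c' y) = dil P (c * c') y := by
  rw [dil_apply P c, dil_P hP, dil_apply, dil_apply, add_sub_cancel_left, smul_smul]

lemma dil_cont (P : E3 →ₗ[ℝ] E3) : Continuous fun p : ℝ × E3 => dil P p.1 p.2 := by
  have := P.continuous_of_finiteDimensional
  simp only [dil_apply]
  fun_prop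

lemma lint_lin (L : E3 →ₗ[ℝ] E3) {d : ℝ} (hd : 0 < d) (h : LinearMap.det L = d)
    (f : E3 → ℝ≥0∞) (hf : Measurable f) :
    ∫⁻ y, f (L y) = ENNReal.ofReal d⁻¹ * ∫⁻ y, f y := by
  rw [← lintegral_map hf L.continuous_of_finiteDimensional.measurable,
    Measure.map_linearMap_addHaar_eq_smul_addHaar _ (by rw [h]; exact hd.ne'), h,
    lintegral_smul_measure, abs_of_pos (inv_pos.2 hd), smul_eq_mul]

lemma lint_mul (a : ℝ) (ha : 0 < a) (g : ℝ → ℝ≥0∞) (hg : Measurable g) :
    ∫⁻ c, g c = ∫⁻ t, ENNReal.ofReal a * g (a * t) := by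
  conv_lhs => rw [← Real.smul_map_volume_mul_left ha.ne']
  rw [lintegral_smul_measure, lintegral_map hg (by fun_prop), abs_of_pos ha, smul_eq_mul,
    lintegral_const_mul' _ _ ENNReal.ofReal_ne_top]

lemma tail_one (k : ℕ) {a : ℝ} (ha : 0 < a) :
    ∫⁻ t in Ioi a, ENNReal.ofReal ((k + 1) * a ^ (k + 1) / t ^ (k + 2)) = 1 := by
  have hd : ∀ t ∈ Ici a, HasDerivAt (fun t : ℝ => -(a ^ (k + 1) * (t ^ (k + 1))⁻¹))
      ((k + 1) * a ^ (k + 1) / t ^ (k + 2)) t := by
    intro t ht
    have ht0 : 0 < t := ha.trans_le ht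
    have h := (((hasDerivAt_pow (k + 1) t).inv (by positivity)).const_mul (a ^ (k + 1))).neg
    refine h.congr_deriv ?_
    simp only [Nat.add_sub_cancel]
    field_simp
    push_cast
    ring
  have hp : ∀ t ∈ Ioi a, 0 ≤ (k + 1 : ℝ) * a ^ (k + 1) / t ^ (k + 2) := by
    intro t ht
    have ht0 : 0 < t := ha.trans ht
    positivity
  have hl : Filter.Tendsto (fun t : ℝ => -(a ^ (k + 1) * (t ^ (k + 1))⁻¹)) Filter.atTop
      (nhds (-(a ^ (k + 1) * 0))) :=
    (((Filter.tendsto_pow_atTop (Nat.succ_ne_zero k)).inv_tendsto_atTop).const_mul _).neg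
  rw [← ofReal_integral_eq_lintegral_ofReal (integrableOn_Ioi_deriv_of_nonneg' hd hp hl)
    (ae_restrict_of_forall_mem measurableSet_Ioi hp), integral_Ioi_of_hasDerivAt_of_nonneg' hd hp hl]
  have : a ^ (k + 1) ≠ 0 := by positivity
  simp [this]

theorem scale_eq (P : E3 →ₗ[ℝ] E3) (hP : ∀ y, P (P y) = P y) (k : ℕ)
    (hdet : ∀ c, 0 < c → LinearMap.det (dil P c) = c ^ (k + 1))
    {A : Set E3} (hA : MeasurableSet A) (hinv : ∀ c, 0 < c → ∀ y ∈ A, dil P c y ∈ A)
    {N : E3 → ℝ} (hN : Measurable N) (hpos : ∀ y ∈ A, 0 < N y)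
    (hNc : ∀ c, 0 < c → ∀ y ∈ A, N (dil P c y) = c * N y)
    {φ : E3 → ℝ≥0∞} (hφ : Measurable φ) :
    ∫⁻ y in A ∩ {y | N y < 1}, φ y = ∫⁻ y in A ∩ {y | N y < 1},
      ∫⁻ c in Ioo (0 : ℝ) 1, ENNReal.ofReal ((k + 1) * c ^ k) * φ (dil P (c / N y) y) := by
  have hB : MeasurableSet (A ∩ {y | N y < 1}) := hA.inter (measurableSet_lt hN measurable_const)
  have hD := (dil_cont P).measurable
  set S : Set (ℝ × E3) := {p | p.2 ∈ A ∩ {y | N y < 1} ∧ N p.2 < p.1} with hS
  have hSm : MeasurableSet S :=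
    (measurable_snd hB).inter (measurableSet_lt (hN.comp measurable_snd) measurable_fst)
  set K : ℝ × E3 → ℝ≥0∞ := S.indicator fun p =>
    ENNReal.ofReal ((k + 1) * N p.2 ^ (k + 1) / p.1) * φ p.2 with hK
  have hKm : Measurable K := by
    refine Measurable.indicator ?_ hSm
    have : Measurable fun p : ℝ × E3 => N p.2 := hN.comp measurable_snd
    refine Measurable.mul (Measurable.ennreal_ofReal ?_) (hφ.comp measurable_snd)
    exact ((this.pow_const _).const_mul _).div measurable_fst
  have hiff : ∀ t, 0 < t → ∀ y, dil P t y ∈ A → y ∈ A := by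
    intro t ht y hy
    have := hinv t⁻¹ (inv_pos.2 ht) _ hy
    rwa [dil_mul hP, inv_mul_cancel₀ ht.ne', dil_one] at this
  set H : ℝ × E3 → ℝ≥0∞ := fun p => (Ioi (0 : ℝ)).indicator (fun t => K (t, dil P t p.2)) p.1
    with hH
  have hHm : Measurable H := by
    have : H = (Prod.fst ⁻¹' Ioi (0 : ℝ)).indicator fun p : ℝ × E3 => K (p.1, dil P p.1 p.2) := by
      ext p; simp only [hH, indicator, mem_preimage]
    rw [this]
    exact (hKm.comp (measurable_fst.prodMk hD)).indicator (measurable_fst measurableSet_Ioi)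
  have h1 : ∀ y, (A ∩ {y | N y < 1}).indicator (fun y => ∫⁻ c in Ioo (0 : ℝ) 1,
      ENNReal.ofReal ((k + 1) * c ^ k) * φ (dil P (c / N y) y)) y = ∫⁻ t, H (t, y) := by
    intro y
    by_cases hy : y ∈ A ∩ {y | N y < 1}
    · have hn := hpos y hy.1
      rw [indicator_of_mem hy, ← lintegral_indicator measurableSet_Ioo, lint_mul (N y) hn]
      · refine lintegral_congr fun t => ?_
        by_cases ht : N y * t ∈ Ioo (0 : ℝ) 1
        · have ht0 : 0 < t := (pos_iff_pos_of_mul_pos ht.1).1 hn
          have e := hNc t ht0 y hy.1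
          have hm : (t, dil P t y) ∈ S := by
            refine ⟨⟨hinv t ht0 y hy.1, ?_⟩, ?_⟩
            · show N (dil P t y) < 1
              rw [e, mul_comm]; exact ht.2
            · show N (dil P t y) < t
              rw [e]; exact mul_lt_of_lt_one_right ht0 hy.2
          simp only [hH, hK]
          rw [indicator_of_mem ht, indicator_of_mem (show t ∈ Ioi (0 : ℝ) from ht0),
            indicator_of_mem hm, mul_div_cancel_left₀ _ hn.ne', ← mul_assoc,
            ← ENNReal.ofReal_mul hn.le, e]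
          congr 2
          field_simp
          ring
        · rw [indicator_of_notMem ht, mul_zero]
          simp only [hH, hK]
          by_cases ht0 : t ∈ Ioi (0 : ℝ)
          · rw [indicator_of_mem ht0, indicator_of_notMem]
            rintro ⟨⟨-, h⟩, -⟩
            refine ht ⟨mul_pos hn ht0, ?_⟩
            have h' : N (dil P t y) < 1 := h
            rwa [hNc t ht0 y hy.1, mul_comm] at h'
          · rw [indicator_of_notMem ht0]
      · refine Measurable.indicator ?_ measurableSet_Ioo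
        refine Measurable.mul (by fun_prop) (hφ.comp ?_)
        exact hD.comp ((measurable_id.div_const _).prodMk measurable_const)
    · rw [indicator_of_notMem hy]
      symm
      refine (lintegral_congr fun t => ?_).trans lintegral_zero
      simp only [hH, hK]
      by_cases ht0 : t ∈ Ioi (0 : ℝ)
      · rw [indicator_of_mem ht0, indicator_of_notMem]
        rintro ⟨⟨h1, -⟩, h⟩
        have hy' := hiff t ht0 y h1
        refine hy ⟨hy', ?_⟩
        have h' : N (dil P t y) < t := h
        rw [hNc t ht0 y hy'] at h'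
        exact (mul_lt_iff_lt_one_right ht0).1 h'
      · rw [indicator_of_notMem ht0]
  set K' : ℝ × E3 → ℝ≥0∞ := S.indicator fun p =>
    ENNReal.ofReal ((k + 1) * N p.2 ^ (k + 1) / p.1 ^ (k + 2)) * φ p.2 with hK'
  have hK'm : Measurable K' := by
    refine Measurable.indicator ?_ hSm
    have : Measurable fun p : ℝ × E3 => N p.2 := hN.comp measurable_snd
    refine Measurable.mul (Measurable.ennreal_ofReal ?_) (hφ.comp measurable_snd)
    exact ((this.pow_const _).const_mul _).div (measurable_fst.pow_const _)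
  have h2 : ∀ t, ∫⁻ y, H (t, y) = ∫⁻ z, K' (t, z) := by
    intro t
    simp only [hH]
    by_cases ht0 : t ∈ Ioi (0 : ℝ)
    · have ht : 0 < t := ht0
      simp only [indicator_of_mem ht0]
      rw [lint_lin (dil P t) (pow_pos ht _) (hdet t ht) (fun z => K (t, z))
        (hKm.comp (measurable_const.prodMk measurable_id)),
        ← lintegral_const_mul' _ _ ENNReal.ofReal_ne_top]
      refine lintegral_congr fun z => ?_
      simp only [hK, hK']
      by_cases hz : (t, z) ∈ S
      · rw [indicator_of_mem hz, indicator_of_mem hz, ← mul_assoc,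
          ← ENNReal.ofReal_mul (by positivity)]
        congr 2
        field_simp
        ring
      · rw [indicator_of_notMem hz, indicator_of_notMem hz, mul_zero]
    · simp only [indicator_of_notMem ht0, lintegral_zero]
      symm
      refine (lintegral_congr fun z => ?_).trans lintegral_zero
      simp only [hK']
      rw [indicator_of_notMem]
      rintro ⟨⟨h1, -⟩, h⟩
      exact ht0 ((hpos z h1).trans h)
  have h3 : ∀ z, ∫⁻ t, K' (t, z) = (A ∩ {y | N y < 1}).indicator φ z := by
    intro z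
    by_cases hz : z ∈ A ∩ {y | N y < 1}
    · rw [indicator_of_mem hz]
      have e : ∀ t, K' (t, z) = (Ioi (N z)).indicator
          (fun t => ENNReal.ofReal ((k + 1) * N z ^ (k + 1) / t ^ (k + 2))) t * φ z := by
        intro t
        simp only [hK']
        by_cases ht : t ∈ Ioi (N z)
        · rw [indicator_of_mem ht, indicator_of_mem (show (t, z) ∈ S from ⟨hz, ht⟩)]
        · rw [indicator_of_notMem ht, indicator_of_notMem (fun h => ht h.2), zero_mul]
      simp_rw [e]
      rw [lintegral_mul_const _ (Measurable.indicator (by fun_prop) measurableSet_Ioi),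
        lintegral_indicator measurableSet_Ioi, tail_one k (hpos z hz.1), one_mul]
    · rw [indicator_of_notMem hz]
      refine (lintegral_congr fun t => ?_).trans lintegral_zero
      simp only [hK']
      rw [indicator_of_notMem (fun h => hz h.1)]
  rw [← lintegral_indicator hB, ← lintegral_indicator hB]
  simp_rw [h1, ← h3]
  rw [← lintegral_lintegral_swap (f := fun t z => K' (t, z)) hK'm.aemeasurable,
    ← lintegral_lintegral_swap (f := fun t z => H (t, z)) hHm.aemeasurable]
  simp_rw [h2]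

/-- inequality form; points with `N = 0` lie in the range of `P`, a null set -/
theorem scale_le (P : E3 →ₗ[ℝ] E3) (hP : ∀ y, P (P y) = P y) (hP' : ∃ y, P y ≠ y) (k : ℕ)
    (hdet : ∀ c, 0 < c → LinearMap.det (dil P c) = c ^ (k + 1))
    {A : Set E3} (hA : MeasurableSet A) (hinv : ∀ c, 0 < c → ∀ y ∈ A, dil P c y ∈ A)
    {N : E3 → ℝ} (hN : Measurable N) (hpos : ∀ y ∈ A, P y ≠ y → 0 < N y)
    (hNc : ∀ c, 0 < c → ∀ y ∈ A, N (dil P c y) = c * N y)
    {φ ψ : E3 → ℝ≥0∞} (hφ : Measurable φ)
    (h : ∀ y ∈ A, 0 < N y → ∫⁻ c in Ioo (0 : ℝ) 1,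
      ENNReal.ofReal ((k + 1) * c ^ k) * φ (dil P (c / N y) y) ≤ ψ y) :
    ∫⁻ y in A ∩ {y | N y < 1}, φ y ≤ ∫⁻ y in A ∩ {y | N y < 1}, ψ y := by
  have hc := P.continuous_of_finiteDimensional
  have hZ : volume {y : E3 | P y = y} = 0 := by
    have : {y : E3 | P y = y} = (LinearMap.ker (P - LinearMap.id) : Submodule ℝ E3) := by
      ext y; simp [sub_eq_zero]
    rw [this]
    refine Measure.addHaar_submodule _ _ fun ht => ?_
    obtain ⟨y, hy⟩ := hP'
    have : y ∈ LinearMap.ker (P - LinearMap.id) := ht ▸ Submodule.mem_top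
    exact hy (by simpa [sub_eq_zero] using this)
  have hZm : MeasurableSet {y : E3 | P y = y} := (isClosed_eq hc continuous_id).measurableSet
  have hae : (A ∩ {y | N y < 1} : Set E3) =ᵐ[volume]
      ((A \ {y : E3 | P y = y}) ∩ {y | N y < 1} : Set E3) :=
    ((sdiff_null_ae_eq_self hZ).symm).inter (Filter.EventuallyEq.refl _ _)
  rw [setLIntegral_congr hae, setLIntegral_congr hae,
    scale_eq P hP k hdet (hA.diff hZm) ?_ hN (fun y hy => hpos y hy.1 hy.2)
      (fun c hc y hy => hNc c hc y hy.1) hφ]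
  · refine setLIntegral_mono' ((hA.diff hZm).inter (measurableSet_lt hN measurable_const)) ?_
    exact fun y hy => h y hy.1.1 (hpos y hy.1.1 hy.1.2)
  · intro c hc y hy
    refine ⟨hinv c hc y hy.1, fun e => hy.2 ?_⟩
    have e' : P (dil P c y) = dil P c y := e
    rw [dil_P hP, dil_apply, left_eq_add, smul_eq_zero] at e'
    exact (sub_eq_zero.1 (e'.resolve_left hc.ne')).symm

lemma det_two (a b p q : E3) (c s : ℝ) (L : E3 →ₗ[ℝ] E3)
    (hL : ∀ y, L y = c • y + s • (inner ℝ p y • a + inner ℝ q y • b)) :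
    LinearMap.det L = c * ((c + s * inner ℝ p a) * (c + s * inner ℝ q b) -
      s ^ 2 * inner ℝ p b * inner ℝ q a) := by
  rw [← LinearMap.det_toMatrix (EuclideanSpace.basisFun (Fin 3) ℝ).toBasis, Matrix.det_fin_three]
  simp only [LinearMap.toMatrix_apply, hL, OrthonormalBasis.coe_toBasis,
    OrthonormalBasis.coe_toBasis_repr_apply, EuclideanSpace.basisFun_repr,
    EuclideanSpace.basisFun_apply, PiLp.add_apply,
    PiLp.smul_apply, smul_eq_mul, PiLp.inner_apply, Fin.sum_univ_three]
  simp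
  ring

end Pool.Agent.Lib.MP_1e5ad7_co.R
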