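import Pool.Agent.Lib.MP_1e5ad7_co.R.GInt

/-! The two averaging steps inside one face cone. -/

set_option autoImplicit false

open MeasureTheory Set Real Function
open scoped ENNReal

namespace Pool.Agent.Lib.MP_1e5ad7_co.R

lemma pieces {κ : Type} [Countable κ] {X Y : Set E3} (T : κ → Set E3) {φ : E3 → ℝ≥0∞}
    {d : ℝ≥0∞} (hcov : X ≤ᵐ[volume] ⋃ i, T i) (hsub : ∀ i, T i ⊆ Y)
    (hd : Pairwise (Disjoint on T)) (hm : ∀ i, MeasurableSet (T i))
    (h : ∀ i, ∫⁻ y in T i, φ y ≤ d * volume (T i)) : ∫⁻ y in X, φ y ≤ d * volume Y := by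
  refine (lintegral_mono_set' hcov).trans ((lintegral_iUnion_le _ _).trans ?_)
  refine (ENNReal.tsum_le_tsum h).trans ?_
  rw [ENNReal.tsum_mul_left, ← measure_iUnion hd hm]
  exact mul_le_mul_right (measure_mono (iUnion_subset hsub)) _

lemma nearest {K : Set E3} (hne : K.Nonempty) (hc : IsClosed K) (hK : Convex ℝ K) :
    ∃ a ∈ K, ∀ z ∈ K, 0 ≤ inner ℝ a (z - a) := by
  obtain ⟨a, ha, h⟩ := exists_norm_eq_iInf_of_complete_convex hne hc.isComplete hK 0
  refine ⟨a, ha, fun z hz => ?_⟩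
  have := (norm_eq_iInf_iff_real_inner_le_zero hK ha).1 h z hz
  rw [zero_sub, inner_neg_left] at this
  linarith

/-- a linear map of rank at most two -/
noncomputable def prj (p q a b : E3) : E3 →ₗ[ℝ] E3 :=
  (innerₛₗ ℝ p).smulRight a + (innerₛₗ ℝ q).smulRight b

lemma prj_apply (p q a b y : E3) : prj p q a b y = inner ℝ p y • a + inner ℝ q y • b := rfl

lemma det_prj (p q a b : E3) (c : ℝ) : LinearMap.det (dil (prj p q a b) c) =
    c * ((c + (1 - c) * inner ℝ p a) * (c + (1 - c) * inner ℝ q b) -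
      (1 - c) ^ 2 * inner ℝ p b * inner ℝ q a) := by
  refine det_two a b p q c (1 - c) _ fun y => ?_
  rw [dil_apply, prj_apply]
  module

lemma moved {P : E3 →ₗ[ℝ] E3} {k : ℕ}
    (hdet : ∀ c, 0 < c → LinearMap.det (dil P c) = c ^ (k + 1)) : ∃ y, P y ≠ y := by
  by_contra h
  push Not at h
  have h1 : dil P 2 = LinearMap.id := by ext1 y; simp [dil_apply, h]
  have h2 := hdet 2 two_pos
  rw [h1, LinearMap.det_id] at h2
  have : (1 : ℝ) < 2 ^ (k + 1) := one_lt_pow₀ one_lt_two (Nat.succ_ne_zero k)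
  linarith

lemma ptw {t τ c : ℝ} {a u : E3} (ht : 0 < t) (ha : t ≤ ‖a‖) (hu : 0 ≤ inner ℝ a u)
    (hτ : τ * t ^ 2 ≤ ‖a + u‖ ^ 2) (h1 : 1 < τ) (hc : c ∈ Ioo (0 : ℝ) 1) :
    t / ‖a + c • u‖ ≤ (√(1 - c ^ 2 + c ^ 2 * τ))⁻¹ := by
  have hq : 0 < 1 - c ^ 2 + c ^ 2 * τ := by nlinarith [sq_nonneg c]
  have h2 : t * √(1 - c ^ 2 + c ^ 2 * τ) ≤ ‖a + c • u‖ := by
    refine (abs_le_of_sq_le_sq' ?_ (norm_nonneg _)).2
    rw [mul_pow, Real.sq_sqrt hq.le, norm_add_sq_real, real_inner_smul_right, norm_smul,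
      Real.norm_eq_abs, mul_pow, sq_abs]
    rw [norm_add_sq_real] at hτ
    have h3 : 0 ≤ 1 - c ^ 2 := by nlinarith [hc.1, hc.2]
    have h4 := mul_le_mul_of_nonneg_left (pow_le_pow_left₀ ht.le ha 2) h3
    have h5 := mul_le_mul_of_nonneg_left hτ (sq_nonneg c)
    have h6 := mul_nonneg (mul_nonneg hc.1.le (sub_nonneg.2 hc.2.le)) hu
    nlinarith
  have hs := Real.sqrt_pos.2 hq
  rw [div_le_iff₀ (lt_of_lt_of_le (by positivity) h2), inv_mul_eq_div, le_div_iff₀ hs]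
  exact h2

/-- density left after averaging along rays from the origin -/
noncomputable def psi (t : ℝ) (v y : E3) : ℝ≥0∞ := ENNReal.ofReal ((t * inner ℝ v y / ‖y‖) ^ 3)

lemma psi_meas (t : ℝ) (v : E3) : Measurable (psi t v) := by unfold psi; fun_prop

lemma dil_one' {v a : E3} (c : ℝ) (y : E3) :
    dil (prj v 0 a 0) c y = inner ℝ v y • a + c • (y - inner ℝ v y • a) := by
  simp [dil_apply, prj_apply]

theorem step1 {t : ℝ} (ht : 0 < t) {v a : E3} (hva : inner ℝ v a = 1) (ha : t ≤ ‖a‖)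
    {A : Set E3} (hA : MeasurableSet A) (hinv : ∀ c, 0 < c → ∀ y ∈ A, dil (prj v 0 a 0) c y ∈ A)
    (hl : ∀ y ∈ A, 0 < inner ℝ v y)
    {N : E3 → ℝ} (hN : Measurable N) (hpos : ∀ y ∈ A, prj v 0 a 0 y ≠ y → 0 < N y)
    (hNc : ∀ c, 0 < c → ∀ y ∈ A, N (dil (prj v 0 a 0) c y) = c * N y)
    (hin : ∀ y ∈ A, N y < 1 → 0 ≤ inner ℝ a (y - inner ℝ v y • a))
    {τ : E3 → ℝ} (hτ : ∀ y ∈ A, 0 < N y → 1 < τ y ∧
      τ y * t ^ 2 ≤ ‖a + (inner ℝ v y * N y)⁻¹ • (y - inner ℝ v y • a)‖ ^ 2) :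
    ∫⁻ y in A ∩ {y | N y < 1}, psi t v y ≤ ∫⁻ y in A ∩ {y | N y < 1}, ENNReal.ofReal (G (τ y)) := by
  have hdet : ∀ c, 0 < c → LinearMap.det (dil (prj v 0 a 0) c) = c ^ (1 + 1) := by
    intro c _
    rw [det_prj, hva]; simp; ring
  refine scale_le (prj v 0 a 0) (fun y => ?_) (moved hdet) 1 hdet hA hinv hN hpos hNc
    (psi_meas t v) fun y hy hn => ?_
  · simp [prj_apply, hva]
  obtain ⟨h1, h2⟩ := hτ y hy hn
  have hl0 := hl y hy
  have hv : ∀ c : ℝ, inner ℝ v (dil (prj v 0 a 0) c y) = inner ℝ v y := by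
    intro c
    simp [dil_one', inner_add_right, inner_sub_right, real_inner_smul_right, hva]
  have h3 : 0 ≤ inner ℝ a (y - inner ℝ v y • a) := by
    have hc : 0 < (2 * N y)⁻¹ := by positivity
    have := hin _ (hinv _ hc y hy) (by rw [hNc _ hc y hy]; field_simp; norm_num)
    rw [hv, dil_one', add_sub_cancel_left, real_inner_smul_right] at this
    exact (mul_nonneg_iff_of_pos_left hc).1 this
  rw [← lev1 h1]
  refine setLIntegral_mono' measurableSet_Ioo fun c hc => ?_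
  have h4 := ptw ht ha (u := (inner ℝ v y * N y)⁻¹ • (y - inner ℝ v y • a))
    (by rw [real_inner_smul_right]; positivity) h2 h1 hc
  have hc0 := hc.1
  rw [psi, ← ENNReal.ofReal_mul (by positivity), hv]
  refine ENNReal.ofReal_le_ofReal ?_
  have e : dil (prj v 0 a 0) (c / N y) y = inner ℝ v y •
      (a + c • (inner ℝ v y * N y)⁻¹ • (y - inner ℝ v y • a)) := by
    rw [dil_one', smul_add, smul_smul, smul_smul]
    congr 2
    field_simp
  rw [e, norm_smul, Real.norm_of_nonneg hl0.le, mul_comm t, mul_div_mul_left _ _ hl0.ne']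
  have h5 := pow_le_pow_left₀ (by positivity) h4 3
  push_cast
  nlinarith

theorem step2 {t₁ t₂ t₃ : ℝ} (h1 : 0 < t₁) (h12 : t₁ < t₂) (h23 : t₂ ≤ t₃) {d : ℝ≥0∞}
    (hd : ∫⁻ c in Ioo (0 : ℝ) 1,
      ENNReal.ofReal (G (((1 - c ^ 2) * t₂ ^ 2 + c ^ 2 * t₃ ^ 2) / t₁ ^ 2)) ≤ d)
    {v m a b : E3} (hva : inner ℝ v a = 1) (hvb : inner ℝ v b = 1) (hma : inner ℝ m a = 0)
    (hmb : inner ℝ m b = 1) (ha : t₁ ≤ ‖a‖) (hb : t₂ ≤ ‖b‖) (hb3 : ‖b‖ < t₃)
    (hfoot : ∀ w, inner ℝ v w = 0 → inner ℝ m w = 0 → inner ℝ b w = 0)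
    {T : Set E3} (hT : T = {y | (0 < inner ℝ m y ∧ inner ℝ m y < inner ℝ v y ∧ inner ℝ v y < 1) ∧
      ‖a + (inner ℝ m y)⁻¹ • (y - inner ℝ v y • a)‖ < t₃})
    (hin : ∀ y ∈ T, 0 ≤ inner ℝ a (y - inner ℝ v y • a)) :
    ∫⁻ y in T, psi t₁ v y ≤ d * volume T := by
  set P := prj (v - m) m a b with hP
  have hPv : ∀ y, inner ℝ v (P y) = inner ℝ v y := by
    intro y
    simp [hP, prj_apply, inner_add_right, real_inner_smul_right, hva, hvb, inner_sub_left]
  have hPm : ∀ y, inner ℝ m (P y) = inner ℝ m y := by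
    intro y
    simp [hP, prj_apply, inner_add_right, real_inner_smul_right, hma, hmb]
  have hPP : ∀ y, P (P y) = P y := by
    intro y
    rw [hP, prj_apply (y := prj _ _ _ _ y), inner_sub_left, ← hP, hPv, hPm, hP, prj_apply,
      inner_sub_left]
  have hz : ∀ y, 0 < inner ℝ m y → ‖a + (inner ℝ m y)⁻¹ • (y - inner ℝ v y • a)‖ ^ 2 =
      ‖b‖ ^ 2 + (‖y - P y‖ / inner ℝ m y) ^ 2 := by
    intro y hy
    have e : a + (inner ℝ m y)⁻¹ • (y - inner ℝ v y • a) = b + (inner ℝ m y)⁻¹ • (y - P y) := by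
      rw [hP, prj_apply, inner_sub_left]
      have h := inv_mul_cancel₀ hy.ne'
      set x := inner ℝ m y
      linear_combination (norm := module) h • b - h • a
    rw [e, norm_add_sq_real, real_inner_smul_right, hfoot (y - P y)
      (by rw [inner_sub_right, hPv, sub_self]) (by rw [inner_sub_right, hPm, sub_self]),
      norm_smul, Real.norm_of_nonneg (inv_pos.2 hy).le]
    ring
  set L := √(t₃ ^ 2 - ‖b‖ ^ 2) with hL
  have hL2 : 0 < t₃ ^ 2 - ‖b‖ ^ 2 := by nlinarith [norm_nonneg b]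
  have hL0 : 0 < L := Real.sqrt_pos.2 hL2
  have eL : L ^ 2 = t₃ ^ 2 - ‖b‖ ^ 2 := Real.sq_sqrt hL2.le
  have hcP := P.continuous_of_finiteDimensional
  have h12' : t₁ ^ 2 < t₂ ^ 2 := by nlinarith
  have hb' : t₂ ^ 2 ≤ ‖b‖ ^ 2 := by nlinarith
  set τ : E3 → ℝ := fun y => (‖b‖ ^ 2 + (‖y - P y‖ / inner ℝ m y) ^ 2) / t₁ ^ 2 with hτ
  have e1 : T = {y | (0 < inner ℝ m y ∧ 0 < inner ℝ v y ∧ inner ℝ v y < 1) ∧
      ‖a + (inner ℝ m y)⁻¹ • (y - inner ℝ v y • a)‖ < t₃} ∩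
        {y | inner ℝ m y / inner ℝ v y < 1} := by
    rw [hT]; ext y
    simp only [mem_ofPred_eq, mem_inter_iff]
    constructor
    · rintro ⟨⟨p1, p2, p3⟩, p4⟩
      exact ⟨⟨⟨p1, p1.trans p2, p3⟩, p4⟩, (div_lt_one (p1.trans p2)).2 p2⟩
    · rintro ⟨⟨⟨p1, p2, p3⟩, p4⟩, p5⟩
      exact ⟨⟨p1, (div_lt_one p2).1 p5, p3⟩, p4⟩
  have e2 : T = {y | 0 < inner ℝ m y ∧ inner ℝ m y < inner ℝ v y ∧ inner ℝ v y < 1} ∩
      {y | ‖y - P y‖ / inner ℝ m y / L < 1} := by
    rw [hT]; ext y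
    simp only [mem_ofPred_eq, mem_inter_iff]
    refine and_congr_right fun p => ?_
    have hp := p.1
    rw [div_lt_one hL0, ← sq_lt_sq₀ (norm_nonneg _) (by linarith), hz y hp,
      ← sq_lt_sq₀ (by positivity) hL0.le, eL]
    constructor <;> intro <;> linarith
  have hv1 : ∀ (c : ℝ) y, inner ℝ v (dil (prj v 0 a 0) c y) = inner ℝ v y := by
    intro c y
    simp [dil_one', inner_add_right, inner_sub_right, real_inner_smul_right, hva]
  have hm1 : ∀ (c : ℝ) y, inner ℝ m (dil (prj v 0 a 0) c y) = c * inner ℝ m y := by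
    intro c y
    simp [dil_one', inner_add_right, inner_sub_right, real_inner_smul_right, hma]
  have s1 : ∫⁻ y in T, psi t₁ v y ≤ ∫⁻ y in T, ENNReal.ofReal (G (τ y)) := by
    rw [e1]
    refine step1 h1 hva ha (by measurability) ?_ (fun y hy => hy.1.2.1) (by fun_prop)
      (fun y hy _ => div_pos hy.1.1 hy.1.2.1) ?_ ?_ ?_
    · rintro c hc y ⟨⟨p1, p2, p3⟩, p4⟩
      simp only [mem_ofPred_eq, hv1, hm1]
      refine ⟨⟨by positivity, p2, p3⟩, ?_⟩
      rw [dil_one', add_sub_cancel_left, smul_smul]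
      convert p4 using 4
      field_simp
    · intro c _ y _
      rw [hv1, hm1, mul_div_assoc]
    · intro y hy hn
      exact hin y (by rw [e1]; exact ⟨hy, hn⟩)
    · rintro y ⟨⟨p1, p2, p3⟩, p4⟩ _
      rw [mul_div_cancel₀ _ p2.ne', hz y p1]
      simp only [hτ]
      refine ⟨?_, by rw [div_mul_cancel₀ _ (by positivity)]⟩
      rw [one_lt_div (by positivity)]
      nlinarith [sq_nonneg (‖y - P y‖ / inner ℝ m y)]
  refine s1.trans ?_
  have hv2 : ∀ (c : ℝ) y, inner ℝ v (dil P c y) = inner ℝ v y := by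
    intro c y
    simp [dil_apply, inner_add_right, inner_sub_right, real_inner_smul_right, hPv]
  have hm2 : ∀ (c : ℝ) y, inner ℝ m (dil P c y) = inner ℝ m y := by
    intro c y
    simp [dil_apply, inner_add_right, inner_sub_right, real_inner_smul_right, hPm]
  have hw : ∀ c : ℝ, 0 < c → ∀ y, ‖dil P c y - P (dil P c y)‖ = c * ‖y - P y‖ := by
    intro c hc y
    rw [dil_P hPP, dil_apply, add_sub_cancel_left, norm_smul, Real.norm_of_nonneg hc.le]
  have hdet : ∀ c, 0 < c → LinearMap.det (dil P c) = c ^ (0 + 1) := by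
    intro c _
    rw [hP, det_prj, inner_sub_left, inner_sub_left, hva, hvb, hma, hmb]; ring
  rw [← setLIntegral_const, e2]
  refine scale_le P hPP (moved hdet) 0 hdet (by measurability) ?_ (by fun_prop) ?_ ?_
    (G_meas.comp (by fun_prop)).ennreal_ofReal ?_
  · intro c _ y hy
    simpa only [mem_ofPred_eq, hv2, hm2] using hy
  · intro y hy hne
    have := norm_pos_iff.2 (sub_ne_zero.2 hne.symm)
    have := hy.1
    positivity
  · intro c hc y _
    rw [hw c hc, hm2]; ring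
  · intro y hy hn
    refine le_trans (setLIntegral_mono' measurableSet_Ioo fun c hc => ?_) hd
    have hc0 := hc.1
    have h3 : 0 ≤ 1 - c ^ 2 := by nlinarith [hc.1, hc.2]
    simp only [Nat.cast_zero, zero_add, pow_zero, mul_one, ENNReal.ofReal_one, one_mul, hτ]
    refine ENNReal.ofReal_le_ofReal (G_anti ?_ ?_)
    · have : 0 < t₃ := by linarith
      have : 0 < t₂ := by linarith
      positivity
    · rw [hw _ (by positivity), hm2]
      have e : c / (‖y - P y‖ / inner ℝ m y / L) * ‖y - P y‖ / inner ℝ m y = c * L := by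
        have hy1 := hy.1
        have : ‖y - P y‖ ≠ 0 := by
          intro h; rw [h] at hn; simp at hn
        field_simp
      rw [e, mul_pow, eL]
      refine div_le_div_of_nonneg_right ?_ (by positivity)
      nlinarith [mul_le_mul_of_nonneg_left hb' h3]

end Pool.Agent.Lib.MP_1e5ad7_co.R
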