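import Pool.Agent.Lib.MP_1e5ad7_co.R.Cell
import Pool.Agent.Lib.MP_1e5ad7_co.Density

/-! Volumes of cones and bodies of revolution, and the projective model. -/

set_option autoImplicit false

open MeasureTheory Set Real Function
open scoped ENNReal

namespace Pool.Agent.Lib.MP_1e5ad7_co.R

lemma cone_one {n : E3} (hn : ‖n‖ = 1) {x : ℝ} (h0 : -1 ≤ x) (h1 : x ≤ 1) :
    volume {k : E3 | ‖k‖ < 1 ∧ x * ‖k‖ < inner ℝ n k} = ENNReal.ofReal (2 * π / 3 * (1 - x)) := by
  have h := arch ((Ioi x).indicator 1) (measurable_one.indicator measurableSet_Ioi) n hn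
  have hm : MeasurableSet {k : E3 | ‖k‖ < 1 ∧ x * ‖k‖ < inner ℝ n k} := by measurability
  have e1 : volume {k : E3 | ‖k‖ < 1 ∧ x * ‖k‖ < inner ℝ n k} =
      ∫⁻ k in Metric.ball (0 : E3) 1, (Ioi x).indicator 1 (inner ℝ k n / ‖k‖) := by
    rw [← lintegral_indicator_one hm, ← lintegral_indicator Metric.isOpen_ball.measurableSet]
    have hae : ∀ᵐ ω : E3, ω ≠ 0 := by
      rw [ae_iff]; simp
    refine lintegral_congr_ae ?_
    filter_upwards [hae] with k hk
    have hp := norm_pos_iff.2 hk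
    simp only [indicator, mem_ofPred_eq, mem_ball_zero_iff, mem_Ioi, lt_div_iff₀ hp,
      real_inner_comm n k, Pi.one_apply]
    by_cases p : ‖k‖ < 1 <;> simp [p]
  have ha0 := arccos_nonneg x
  have haπ := arccos_le_pi x
  have e2 : ∫⁻ φ in Ioo (-π) π, ENNReal.ofReal (sin φ) * (Ioi x).indicator 1 (cos φ) =
      ∫⁻ φ in Ioo 0 (arccos x), ENNReal.ofReal (sin φ) := by
    rw [← lintegral_indicator measurableSet_Ioo, ← lintegral_indicator measurableSet_Ioo]
    refine lintegral_congr fun φ => ?_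
    by_cases p : φ ∈ Ioo 0 (arccos x)
    · have q : x < cos φ := by
        rw [← cos_arccos h0 h1]
        exact cos_lt_cos_of_nonneg_of_le_pi p.1.le haπ p.2
      rw [indicator_of_mem p, indicator_of_mem (show φ ∈ Ioo (-π) π from
        ⟨by linarith [p.1, pi_pos], p.2.trans_le haπ⟩), indicator_of_mem (show cos φ ∈ Ioi x from q)]
      simp
    · rw [indicator_of_notMem p]
      by_cases q : φ ∈ Ioo (-π) π
      · rw [indicator_of_mem q]
        rcases le_or_gt φ 0 with r | r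
        · rw [ENNReal.ofReal_of_nonpos (sin_nonpos_of_nonpos_of_neg_pi_le r q.1.le), zero_mul]
        · have r2 : arccos x ≤ φ := not_lt.1 fun h => p ⟨r, h⟩
          have r3 := cos_le_cos_of_nonneg_of_le_pi ha0 q.2.le r2
          rw [cos_arccos h0 h1] at r3
          rw [indicator_of_notMem (show cos φ ∉ Ioi x from not_lt.2 r3), mul_zero]
      · rw [indicator_of_notMem q]
  rw [e1, h, e2, lftc ha0 (F := fun φ => -cos φ) 
    (fun φ _ => (hasDerivAt_cos φ).neg.congr_deriv (neg_neg _)) continuous_sin.continuousOn (fun φ p => sin_nonneg_of_nonneg_of_le_pi p.1.le (p.2.le.trans haπ)),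
    ← ENNReal.ofReal_mul (by positivity), cos_arccos h0 h1, cos_zero]
  congr 1; ring

lemma cone_vol {n : E3} (hn : ‖n‖ = 1) {x ρ : ℝ} (h0 : -1 ≤ x) (h1 : x ≤ 1) (hρ : 0 < ρ) :
    volume {k : E3 | ‖k‖ < ρ ∧ x * ‖k‖ < inner ℝ n k} =
      ENNReal.ofReal (2 * π / 3 * ρ ^ 3 * (1 - x)) := by
  have e : {k : E3 | ‖k‖ < 1 ∧ x * ‖k‖ < inner ℝ n k} =
      (fun k => ρ • k) ⁻¹' {k : E3 | ‖k‖ < ρ ∧ x * ‖k‖ < inner ℝ n k} := by
    ext k
    simp only [mem_ofPred_eq, mem_preimage, norm_smul, Real.norm_of_nonneg hρ.le,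
      real_inner_smul_right, mul_lt_iff_lt_one_right hρ, mul_left_comm x ρ,
      mul_lt_mul_iff_right₀ hρ]
  have h := cone_one hn h0 h1
  rw [e, Measure.addHaar_preimage_smul _ hρ.ne', finrank_euclideanSpace_fin,
    abs_of_pos (by positivity)] at h
  have h3 : 0 < ρ ^ 3 := by positivity
  calc _ = ENNReal.ofReal (ρ ^ 3) * (ENNReal.ofReal (ρ ^ 3)⁻¹ *
        volume {k : E3 | ‖k‖ < ρ ∧ x * ‖k‖ < inner ℝ n k}) := by
        rw [← mul_assoc, ← ENNReal.ofReal_mul h3.le, mul_inv_cancel₀ h3.ne']; simp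
    _ = _ := by rw [h, ← ENNReal.ofReal_mul h3.le]; congr 1; ring

lemma disc (g : ℝ) : ∫⁻ p : ℝ × ℝ, {ρ : ℝ | ρ ^ 2 < g}.indicator 1 (√(p.1 ^ 2 + p.2 ^ 2)) =
    ENNReal.ofReal (π * g) := by
  rw [polar_radial _ (measurable_one.indicator (by measurability))]
  have e : ∫⁻ ρ : ℝ, ENNReal.ofReal ρ * {ρ : ℝ | ρ ^ 2 < g}.indicator 1 ρ =
      ∫⁻ ρ in Ioo 0 √g, ENNReal.ofReal ρ := by
    rw [← lintegral_indicator measurableSet_Ioo]
    refine lintegral_congr fun ρ => ?_
    rcases le_or_gt ρ 0 with r | r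
    · simp [indicator, ENNReal.ofReal_of_nonpos r]
    · simp [indicator, r, Real.lt_sqrt r.le]
  rw [e, lftc (sqrt_nonneg g) (f := fun ρ => ρ) (F := fun ρ => ρ ^ 2 / 2)
    (fun ρ _ => by simpa using (hasDerivAt_pow 2 ρ).div_const 2) continuous_id.continuousOn
    (fun ρ p => p.1.le), ← ENNReal.ofReal_mul (by positivity)]
  rcases le_total g 0 with r | r
  · rw [Real.sqrt_eq_zero_of_nonpos r, ENNReal.ofReal_of_nonpos (mul_nonpos_of_nonneg_of_nonpos
      pi_pos.le r)]
    simp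
  · rw [Real.sq_sqrt r]; congr 1; ring

lemma cyl {n : E3} (hn : ‖n‖ = 1) {g : ℝ → ℝ} (hg : Measurable g) (a b : ℝ) :
    volume {k : E3 | inner ℝ n k ∈ Ioo a b ∧ ‖k‖ ^ 2 - inner ℝ n k ^ 2 < g (inner ℝ n k)} =
      ∫⁻ z in Ioo a b, ENNReal.ofReal (π * g z) := by
  set e : E3 := EuclideanSpace.single 0 1 with he
  have hne : ‖n‖ = ‖e‖ := by simp [he, hn]
  set R : E3 ≃ₗᵢ[ℝ] E3 := (ℝ ∙ (n - e))ᗮ.reflection with hR
  have hRv : R n = e := Submodule.reflection_sub hne
  have hmp : MeasurePreserving (fun x : E3 => ((x 0, (x 1, x 2)) : ℝ × (ℝ × ℝ))) volume volume := by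
    have h1 := PiLp.volume_preserving_ofLp (Fin 3)
    have h2 := volume_preserving_piFinSuccAbove (fun _ : Fin 3 => ℝ) 0
    have h3 := (MeasurePreserving.id (volume : Measure ℝ)).prod (volume_preserving_finTwoArrow ℝ)
    exact (h3.comp h2).comp h1
  set S : Set (ℝ × (ℝ × ℝ)) := {p | p.1 ∈ Ioo a b ∧ p.2.1 ^ 2 + p.2.2 ^ 2 < g p.1} with hS
  have hSm : MeasurableSet S :=
    (measurable_fst measurableSet_Ioo).inter (measurableSet_lt
      (f := fun p : ℝ × (ℝ × ℝ) => p.2.1 ^ 2 + p.2.2 ^ 2) (by fun_prop) (hg.comp measurable_fst))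
  have e1 : {k : E3 | inner ℝ n k ∈ Ioo a b ∧ ‖k‖ ^ 2 - inner ℝ n k ^ 2 < g (inner ℝ n k)} =
      ((fun x : E3 => ((x 0, (x 1, x 2)) : ℝ × (ℝ × ℝ))) ∘ R) ⁻¹' S := by
    ext k
    have h1 : inner ℝ n k = R k 0 := by
      rw [← R.inner_map_map n k, hRv, he]
      simp [EuclideanSpace.inner_single_left]
    have h2 : ‖k‖ ^ 2 - R k 0 ^ 2 = R k 1 ^ 2 + R k 2 ^ 2 := by
      rw [← R.norm_map k, EuclideanSpace.real_norm_sq_eq, Fin.sum_univ_three]; ring
    simp only [mem_ofPred_eq, mem_preimage, comp, hS, h1, h2]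
  rw [e1, (hmp.comp R.measurePreserving).measure_preimage hSm.nullMeasurableSet,
    ← lintegral_indicator_one hSm, Measure.volume_eq_prod,
    lintegral_prod _ (measurable_one.indicator hSm).aemeasurable,
    ← lintegral_indicator measurableSet_Ioo]
  refine lintegral_congr fun z => ?_
  by_cases hz : z ∈ Ioo a b
  · rw [indicator_of_mem hz, ← disc]
    refine lintegral_congr fun p => ?_
    simp only [indicator, hS, mem_ofPred_eq, hz, true_and, Pi.one_apply,
      Real.sq_sqrt (by positivity : 0 ≤ p.1 ^ 2 + p.2 ^ 2)]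
  · rw [indicator_of_notMem hz]
    refine (lintegral_congr fun p => ?_).trans lintegral_zero
    exact indicator_of_notMem (fun h => hz h.1) _

/-- volume element of the projective model -/
noncomputable def wt (k : E3) : ℝ≥0∞ := ENNReal.ofReal (((1 - ‖k‖ ^ 2) ^ 2)⁻¹)

lemma wt_meas : Measurable wt := by unfold wt; fun_prop

lemma ball_wt {s : ℝ} (h0 : 0 < s) (h1 : s < 1) : ∫⁻ k in Metric.ball (0 : E3) s, wt k =
    ENNReal.ofReal (2 * π * (s / (1 - s ^ 2) - (log (1 + s) - log (1 - s)) / 2)) := by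
  have hdet : ∀ c, 0 < c → LinearMap.det (dil (prj 0 0 0 0) c) = c ^ (2 + 1) := by
    intro c _
    rw [det_prj]; simp; ring
  have hae : (Metric.ball (0 : E3) s : Set E3) =ᵐ[volume]
      (({0}ᶜ : Set E3) ∩ {y | ‖y‖ / s < 1} : Set E3) := by
    have hae : ∀ᵐ ω : E3, ω ≠ 0 := by
      rw [ae_iff]; simp
    filter_upwards [hae] with k hk
    refine propext ?_
    show k ∈ Metric.ball (0 : E3) s ↔ k ∈ ({0}ᶜ : Set E3) ∩ {y | ‖y‖ / s < 1}
    simp [hk, div_lt_one h0]
  have hA : MeasurableSet ({0}ᶜ : Set E3) := (measurableSet_singleton _).compl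
  rw [setLIntegral_congr hae, scale_eq (prj 0 0 0 0) (fun y => by simp [prj_apply]) 2 hdet hA
    (fun c hc y hy => by rw [dil_zero]; exact smul_ne_zero hc.ne' hy) (by fun_prop)
    (fun y hy => div_pos (norm_pos_iff.2 hy) h0)
    (fun c hc y _ => by rw [dil_zero, norm_smul, Real.norm_of_nonneg hc.le, mul_div_assoc])
    wt_meas]
  set F : ℝ → ℝ := fun x => x / (1 - x ^ 2) - (log (1 + x) - log (1 - x)) / 2 with hF
  have hq : ∀ c ∈ Icc (0 : ℝ) 1, 0 ≤ c * s ∧ c * s < 1 := fun c hc =>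
    ⟨mul_nonneg hc.1 h0.le, by nlinarith [hc.2]⟩
  have hI := lftc zero_le_one (f := fun c => 3 * c ^ 2 * ((1 - (c * s) ^ 2) ^ 2)⁻¹)
    (F := fun c => 3 / (2 * s ^ 3) * F (c * s)) (by
      intro c hc
      obtain ⟨p, q⟩ := hq c hc
      have a1 : 1 + c * s ≠ 0 := by linarith
      have a2 : 1 - c * s ≠ 0 := by linarith
      have a3 : 1 - (c * s) ^ 2 ≠ 0 := by nlinarith
      have d0 := hasDerivAt_id (c * s)
      have d1 : HasDerivAt F (2 * (c * s) ^ 2 / (1 - (c * s) ^ 2) ^ 2) (c * s) := by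
        refine ((d0.div ((hasDerivAt_pow 2 (c * s)).const_sub 1) a3).sub ((((d0.const_add 1).log a1).sub
          ((d0.const_sub 1).log a2)).div_const 2)).congr_deriv ?_
        simp only [id]
        rw [show 1 - (c * s) ^ 2 = (1 + c * s) * (1 - c * s) by ring]
        field_simp
        ring
      refine ((d1.comp c ((hasDerivAt_id c).mul_const s)).const_mul _).congr_deriv ?_
      field_simp) (by
      refine ContinuousOn.mul (by fun_prop) (ContinuousOn.inv₀ (by fun_prop) fun c hc => ?_)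
      obtain ⟨p, q⟩ := hq c hc
      exact pow_ne_zero _ (by nlinarith)) (fun c _ => by positivity)
  rw [setLIntegral_congr_fun (hA.inter (measurableSet_lt (by fun_prop) measurable_const))
    (g := fun _ => ENNReal.ofReal (3 / (2 * s ^ 3) * F s)), setLIntegral_const,
    ← measure_congr hae, EuclideanSpace.volume_ball_fin_three, ← ENNReal.ofReal_pow h0.le,
    ← ENNReal.ofReal_mul (by positivity), mul_comm, ← ENNReal.ofReal_mul (by positivity)]
  · congr 1
    simp only [hF]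
    field_simp
    ring
  · intro y hy
    have hy0 := norm_pos_iff.2 hy.1
    simp only [hF, one_mul, zero_mul, zero_div, add_zero, sub_zero, sub_self, mul_zero] at hI
    simp only [hF]
    rw [← hI]
    refine setLIntegral_congr_fun measurableSet_Ioo fun c hc => ?_
    have hc0 := hc.1
    have e2 : ‖(c / (‖y‖ / s)) • y‖ = c * s := by
      rw [norm_smul, Real.norm_of_nonneg (by positivity)]; field_simp
    simp only [dil_zero, wt, e2]
    rw [← ENNReal.ofReal_mul (by positivity)]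
    norm_num

/-- the isometry of the projective model that sends the origin to the point `(t, p)` -/
noncomputable def mv (t : ℝ) (p k : E3) : E3 :=
  (t + inner ℝ p k)⁻¹ • (k + (inner ℝ p k / (1 + t) + 1) • p)

lemma den_pos {t : ℝ} {p k : E3} (h0 : 0 ≤ t) (ht : t ^ 2 = 1 + ‖p‖ ^ 2) (hk : ‖k‖ < 1) :
    0 < t + inner ℝ p k := by
  have h1 := abs_real_inner_le_norm p k
  have h2 := neg_abs_le (inner ℝ p k)
  have h3 : ‖p‖ < t := (abs_lt_of_sq_lt_sq' (by linarith) h0).2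
  nlinarith [norm_nonneg p]

lemma mv_inner {t : ℝ} {p k : E3} (h0 : 0 ≤ t) (hk : 0 < t + inner ℝ p k) (u : ℝ) (y : E3) :
    u - inner ℝ y (mv t p k) = (t + inner ℝ p k)⁻¹ *
      ((t * u - inner ℝ p y) - inner ℝ (y + (inner ℝ p y / (1 + t) - u) • p) k) := by
  have : 1 + t ≠ 0 := by linarith
  simp only [mv, inner_add_left, inner_add_right, real_inner_smul_left, real_inner_smul_right,
    real_inner_comm p y]
  field_simp
  ring

lemma mv_self {t : ℝ} {p k : E3} (h0 : 0 ≤ t) (ht : t ^ 2 = 1 + ‖p‖ ^ 2)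
    (hk : 0 < t + inner ℝ p k) : t - inner ℝ p (mv t p k) = (t + inner ℝ p k)⁻¹ := by
  have : 1 + t ≠ 0 := by linarith
  have h2 : inner ℝ p p = t ^ 2 - 1 := by rw [real_inner_self_eq_norm_sq]; linarith
  simp only [mv, inner_add_right, real_inner_smul_right, h2]
  field_simp
  ring

lemma mv_norm {t : ℝ} {p k : E3} (h0 : 0 ≤ t) (ht : t ^ 2 = 1 + ‖p‖ ^ 2)
    (hk : 0 < t + inner ℝ p k) :
    1 - ‖mv t p k‖ ^ 2 = (1 - ‖k‖ ^ 2) / (t + inner ℝ p k) ^ 2 := by
  have : 1 + t ≠ 0 := by linarith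
  have h2 : ‖p‖ ^ 2 = t ^ 2 - 1 := by linarith
  rw [mv, norm_smul, mul_pow, Real.norm_eq_abs, sq_abs, norm_add_sq_real, norm_smul, mul_pow,
    Real.norm_eq_abs, sq_abs, h2, real_inner_smul_right, real_inner_comm p k]
  field_simp
  ring

theorem mv_wt {t : ℝ} {p : E3} (h0 : 0 ≤ t) (ht : t ^ 2 = 1 + ‖p‖ ^ 2) {U : Set E3}
    (hU : MeasurableSet U) (hU1 : ∀ k ∈ U, ‖k‖ < 1) :
    ∫⁻ k in mv t p '' U, wt k = ∫⁻ k in U, wt k := by
  have h1 : 1 + t ≠ 0 := by linarith
  have hex : ∀ k, ∃ L : E3 →L[ℝ] E3, k ∈ U →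
      HasFDerivAt (mv t p) L k ∧ L.det = ((t + inner ℝ p k) ^ 4)⁻¹ := by
    intro k
    by_cases hk : k ∈ U
    swap
    · exact ⟨0, fun h => absurd h hk⟩
    have hd := den_pos h0 ht (hU1 k hk)
    have d0 : HasFDerivAt (fun k : E3 => inner ℝ p k) (innerSL ℝ p) k := (innerSL ℝ p).hasFDerivAt
    have d1 := (hasDerivAt_inv hd.ne').comp_hasFDerivAt k (d0.const_add t)
    have d2 := (hasFDerivAt_id k).add
      ((((d0.mul_const (1 + t)⁻¹).add_const 1)).smul_const p)
    refine ⟨_, fun _ => ⟨by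
      have := d1.smul d2
      refine this.congr_of_eventuallyEq (Filter.Eventually.of_forall fun y => ?_)
      simp [mv, div_eq_mul_inv], ?_⟩⟩
    have h2 : inner ℝ p p = t ^ 2 - 1 := by rw [real_inner_self_eq_norm_sq]; linarith
    rw [ContinuousLinearMap.det, det_two ((t + inner ℝ p k)⁻¹ • (1 + t)⁻¹ • p -
      ((t + inner ℝ p k) ^ 2)⁻¹ • (k + (inner ℝ p k * (1 + t)⁻¹ + 1) • p)) 0 p 0
      (t + inner ℝ p k)⁻¹ 1]
    · simp only [inner_sub_right, inner_add_right, real_inner_smul_right, h2, inner_zero_left,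
        inner_zero_right]
      field_simp
      ring
    · intro y
      simp
      module
  choose L hL using hex
  rw [lintegral_image_eq_lintegral_abs_det_fderiv_mul volume hU
    (fun k hk => (hL k hk).1.hasFDerivWithinAt)]
  · refine setLIntegral_congr_fun hU fun k hk => ?_
    have hd := den_pos h0 ht (hU1 k hk)
    simp only [wt]
    rw [(hL k hk).2, mv_norm h0 ht hd, ← ENNReal.ofReal_mul (abs_nonneg _),
      abs_of_pos (by positivity)]
    congr 1
    have : 1 - ‖k‖ ^ 2 ≠ 0 := by nlinarith [hU1 k hk, norm_nonneg k]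
    field_simp
  · intro k hk k' hk' e
    have hd := den_pos h0 ht (hU1 k hk)
    have hd' := den_pos h0 ht (hU1 k' hk')
    have h2 := mv_self h0 ht hd
    rw [e, mv_self h0 ht hd', inv_inj, add_left_cancel_iff] at h2
    rw [mv, mv, h2] at e
    exact add_right_cancel (smul_right_injective _ (inv_pos.2 hd).ne' e)

end Pool.Agent.Lib.MP_1e5ad7_co.R
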