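import Pool.Agent.Lib.MP_1e5ad7_co.R.Vol

/-! The empty layer near the wall of the container, and the deficiency of one cell. -/

set_option autoImplicit false

open MeasureTheory Set Real Function
open scoped ENNReal

namespace Pool.Agent.Lib.MP_1e5ad7_co.R

lemma exists_unit (w : E3) : ∃ n : E3, ‖n‖ = 1 ∧ w = ‖w‖ • n := by
  by_cases h : w = 0
  · exact ⟨EuclideanSpace.single 0 1, by simp, by simp [h]⟩
  · have hn := norm_pos_iff.2 h
    exact ⟨‖w‖⁻¹ • w, by rw [norm_smul, norm_inv, norm_norm, inv_mul_cancel₀ hn.ne'],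
      by rw [smul_smul, mul_inv_cancel₀ hn.ne', one_smul]⟩

lemma wall0 {D E e b s s' : ℝ} {w v v' : E3} (hD0 : 0 ≤ D) (hD : D ^ 2 = 1 + ‖w‖ ^ 2)
    (hs0 : 0 ≤ s) (hs : s ^ 2 = 1 + ‖v‖ ^ 2) (hs0' : 0 ≤ s') (hs' : s' ^ 2 = 1 + ‖v'‖ ^ 2)
    (h1 : D * s - inner ℝ w v ≤ E) (h1' : D * s' - inner ℝ w v' ≤ E) (hE : E ≤ e * D)
    (he : e < 1) (hb : 0 ≤ b) (h2 : s ≤ e + b) (h2' : s' < e + b) :
    s * s' - inner ℝ v v' < 2 * ((e + b) ^ 2 - b ^ 2) - 1 := by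
  obtain ⟨n, hn, hw⟩ := exists_unit w
  have hD1 := one_le_of_hyp hD0 hD
  have hwD := norm_le_of_hyp hD0 hD
  have key : ∀ (s : ℝ) (v : E3), 0 ≤ s → s ^ 2 = 1 + ‖v‖ ^ 2 → D * s - inner ℝ w v ≤ E →
      s ≤ e + b → 0 < s - inner ℝ n v ∧ s - inner ℝ n v ≤ e ∧
        ‖v - inner ℝ n v • n‖ ^ 2 ≤ (e + b) ^ 2 - b ^ 2 - 1 := by
    intro s v p0 p1 p2 p3
    have q1 := one_le_of_hyp p0 p1
    have q2 : ‖v‖ < s := (abs_lt_of_sq_lt_sq' (by linarith) p0).2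
    have q3 := real_inner_le_norm n v
    rw [hn, one_mul] at q3
    rw [hw, real_inner_smul_left] at p2
    have q4 : s - inner ℝ n v ≤ e := by
      rcases le_or_gt 0 (inner ℝ n v) with r | r
      · have := mul_le_mul_of_nonneg_right hwD r
        exact le_of_mul_le_mul_left (a := D) (by nlinarith) (by linarith)
      · nlinarith [norm_nonneg w]
    refine ⟨by linarith, q4, ?_⟩
    rw [norm_sub_sq_real, real_inner_smul_right, norm_smul, hn, mul_one, Real.norm_eq_abs, sq_abs,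
      real_inner_comm n v]
    have q5 : 0 < s - inner ℝ n v := by linarith
    nlinarith [mul_le_mul_of_nonneg_left p3 q5.le, mul_nonneg (sub_nonneg.2 q4) hb,
      sq_nonneg (e - (s - inner ℝ n v))]
  obtain ⟨a0, a1, a2⟩ := key s v hs0 hs h1 h2
  obtain ⟨c0, c1, c2⟩ := key s' v' hs0' hs' h1' h2'.le
  have h3 := sq_nonneg ‖(v - inner ℝ n v • n) + (v' - inner ℝ n v' • n)‖
  have h4 : inner ℝ (v - inner ℝ n v • n) (v' - inner ℝ n v' • n) =
      inner ℝ v v' - inner ℝ n v * inner ℝ n v' := by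
    simp only [inner_sub_left, inner_sub_right, real_inner_smul_left, real_inner_smul_right,
      real_inner_self_eq_norm_sq, hn, real_inner_comm n v]
    ring
  rw [norm_add_sq_real, h4] at h3
  nlinarith [mul_le_mul_of_nonneg_left h2 c0.le, mul_lt_mul_of_pos_left h2' a0,
    mul_nonneg (sub_nonneg.2 a1) (sub_nonneg.2 c1), mul_nonneg (sub_nonneg.2 a1) hb,
    mul_nonneg (sub_nonneg.2 c1) hb]

lemma boost_hyp {c₀ t : ℝ} {c x : E3} (hc0 : 0 ≤ c₀) (hc : c₀ ^ 2 = 1 + ‖c‖ ^ 2) (h0 : 0 ≤ t)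
    (ht : t ^ 2 = 1 + ‖x‖ ^ 2) : 0 ≤ c₀ * t - inner ℝ c x ∧ (c₀ * t - inner ℝ c x) ^ 2 =
      1 + ‖x + (inner ℝ c x / (1 + c₀) - t) • c‖ ^ 2 := by
  have h1 := real_inner_le_norm c x
  have h2 := mul_le_mul (norm_le_of_hyp hc0 hc) (norm_le_of_hyp h0 ht) (norm_nonneg _) hc0
  have h3 := boost_inv hc0 hc t t x x
  rw [real_inner_self_eq_norm_sq, real_inner_self_eq_norm_sq, ← sq, ← sq] at h3
  exact ⟨by linarith, by linarith⟩

theorem wall {c₀ y₀ t t' E e b : ℝ} {c y x x' : E3} (hc0 : 0 ≤ c₀) (hc : c₀ ^ 2 = 1 + ‖c‖ ^ 2)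
    (hy0 : 0 ≤ y₀) (hy : y₀ ^ 2 = 1 + ‖y‖ ^ 2) (h0 : 0 ≤ t) (ht : t ^ 2 = 1 + ‖x‖ ^ 2)
    (h0' : 0 ≤ t') (ht' : t' ^ 2 = 1 + ‖x'‖ ^ 2) (h1 : c₀ * t - inner ℝ c x ≤ E)
    (h1' : c₀ * t' - inner ℝ c x' ≤ E) (hE : E ≤ e * (y₀ * c₀ - inner ℝ y c)) (he : e < 1)
    (hb : 0 ≤ b) (h2 : y₀ * t - inner ℝ y x ≤ e + b) (h2' : y₀ * t' - inner ℝ y x' < e + b) :
    t * t' - inner ℝ x x' < 2 * ((e + b) ^ 2 - b ^ 2) - 1 := by
  obtain ⟨a0, a1⟩ := boost_hyp hy0 hy hc0 hc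
  obtain ⟨b0, b1⟩ := boost_hyp hy0 hy h0 ht
  obtain ⟨d0, d1⟩ := boost_hyp hy0 hy h0' ht'
  rw [← boost_inv hy0 hy] at h1 h1' ⊢
  exact wall0 a0 a1 b0 b1 d0 d1 h1 h1' hE he hb h2 h2'

theorem defic {ι : Type} {t₁ t₃ h u : ℝ} {d : ℝ≥0∞} {v : ι → E3} {n : E3} (hn : ‖n‖ = 1)
    (h1 : 0 < t₁) (h0 : 0 < h) (hh : h ≤ t₃) (h3 : t₃ ≤ 9 / 40) (hu : 1 ≤ u)
    (hut : u ^ 2 * (1 - t₃ ^ 2) = 1)
    (hΓ : ∀ y, h / t₃ * ‖y‖ < inner ℝ n y → ∀ j, t₃ * inner ℝ (v j) y ≤ ‖y‖)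
    (hcell : volume (Metric.ball (0 : E3) t₁ \ {y | h / t₃ * ‖y‖ < inner ℝ n y}) ≤
      d * volume ({y | ‖y‖ < t₃ ∧ ∀ j, inner ℝ (v j) y < 1} \ {y | h / t₃ * ‖y‖ < inner ℝ n y}))
    {U : Set E3} (hU : ∀ k, ‖k‖ < t₃ → (∀ j, inner ℝ (v j) k < 1) →
      (1 + inner ℝ n k) ^ 2 ≤ ((1 + h) * u) ^ 2 * (1 - ‖k‖ ^ 2) → k ∈ U) :
    volume (Metric.ball (0 : E3) t₁) + d * ENNReal.ofReal
      (π / 3 * h * (t₃ ^ 2 - h ^ 2) + π * (23 / 100) * (t₃ ^ 2 - h ^ 2) ^ 2) ≤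
      d * volume U + ENNReal.ofReal (2 * π / 3 * t₁ ^ 3 * (1 - h / t₃)) := by
  have ht : 0 < t₃ := by linarith
  set γ := t₃ ^ 2 - h ^ 2 with hγ
  have γ0 : 0 ≤ γ := by nlinarith
  have γ1 : γ ≤ 51 / 1000 := by nlinarith
  set Γ : Set E3 := {y | h / t₃ * ‖y‖ < inner ℝ n y} with hΓd
  have hΓm : MeasurableSet Γ := measurableSet_lt (by fun_prop) (by fun_prop)
  set C₁ : Set E3 := {k | inner ℝ n k ∈ Ioo 0 h ∧
    ‖k‖ ^ 2 - inner ℝ n k ^ 2 < (fun z => γ / h ^ 2 * z ^ 2) (inner ℝ n k)} with hC₁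
  set C₂ : Set E3 := {k | inner ℝ n k ∈ Ioo h (h + 23 / 50 * γ) ∧
    ‖k‖ ^ 2 - inner ℝ n k ^ 2 < (fun z => γ - 50 / 23 * (z - h)) (inner ℝ n k)} with hC₂
  have v1 : volume C₁ = ENNReal.ofReal (π / 3 * h * γ) := by
    rw [hC₁, cyl hn (g := fun z => γ / h ^ 2 * z ^ 2) (by fun_prop), lftc h0.le
      (F := fun z => π * (γ / h ^ 2 * (z ^ 3 / 3)))
      (fun z _ => ((((hasDerivAt_pow 3 z).div_const 3).const_mul _).const_mul π).congr_deriv
        (by simp)) (by fun_prop) (fun z _ => by positivity)]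
    congr 1
    field_simp
    ring
  have v2 : volume C₂ = ENNReal.ofReal (π * (23 / 100) * γ ^ 2) := by
    rw [hC₂, cyl hn (g := fun z => γ - 50 / 23 * (z - h)) (by fun_prop), lftc (by linarith)
      (F := fun z => π * (γ * z - 25 / 23 * (z - h) ^ 2))
      (fun z _ => ((((hasDerivAt_id z).const_mul γ).sub
        ((((hasDerivAt_id z).sub_const h).pow 2).const_mul _)).const_mul π).congr_deriv
        (by simp; ring)) (by fun_prop)
      (fun z hz => mul_nonneg pi_pos.le (by linarith [hz.2]))]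
    congr 1
    ring
  have hz : ∀ k : E3, -‖k‖ ≤ inner ℝ n k := fun k => by
    have := abs_real_inner_le_norm n k
    rw [hn, one_mul] at this
    exact (abs_le.1 this).1
  have hlow : ∀ k : E3, ‖k‖ < t₃ → inner ℝ n k ≤ h →
      (1 + inner ℝ n k) ^ 2 ≤ ((1 + h) * u) ^ 2 * (1 - ‖k‖ ^ 2) := by
    intro k p q
    have a1 : (1 + inner ℝ n k) ^ 2 ≤ (1 + h) ^ 2 :=
      pow_le_pow_left₀ (by linarith [hz k]) (by linarith) 2
    have a2 : 1 ≤ u ^ 2 * (1 - ‖k‖ ^ 2) := by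
      rw [← hut]
      exact mul_le_mul_of_nonneg_left (by nlinarith [norm_nonneg k]) (sq_nonneg u)
    nlinarith [mul_le_mul_of_nonneg_left a2 (sq_nonneg (1 + h))]
  have hin : ∀ k ∈ Γ, ‖k‖ < t₃ → ∀ j, inner ℝ (v j) k < 1 := fun k p q j => by
    nlinarith [hΓ k p j]
  have s1 : ∀ k ∈ C₁, k ∈ Γ ∧ k ∈ U := by
    rintro k ⟨⟨p1, p2⟩, p3⟩
    have a1 : h * ‖k‖ < t₃ * inner ℝ n k := by
      refine (abs_lt_of_sq_lt_sq' ?_ (by positivity)).2
      simp only [div_mul_eq_mul_div, lt_div_iff₀ (pow_pos h0 2), hγ] at p3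
      nlinarith
    have a2 : k ∈ Γ := by
      show h / t₃ * ‖k‖ < _
      rw [div_mul_eq_mul_div, div_lt_iff₀ ht]; linarith
    have a3 : ‖k‖ < t₃ := by nlinarith
    exact ⟨a2, hU k a3 (hin k a2 a3) (hlow k a3 p2.le)⟩
  have s2 : ∀ k ∈ C₂, k ∈ Γ ∧ k ∈ U := by
    rintro k ⟨⟨p1, p2⟩, p3⟩
    obtain ⟨θ, hθ⟩ : ∃ θ, inner ℝ n k = h + θ := ⟨inner ℝ n k - h, by ring⟩
    simp only [hθ, add_sub_cancel_left] at p1 p2 p3
    have θ0 : 0 < θ := by linarith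
    have θ1 : θ ≤ 24 / 1000 := by linarith
    have a3 : ‖k‖ < t₃ := (abs_lt_of_sq_lt_sq' (by nlinarith) ht.le).2
    have a2 : k ∈ Γ := by
      show h / t₃ * ‖k‖ < _
      rw [div_mul_eq_mul_div, div_lt_iff₀ ht, hθ]; nlinarith
    refine ⟨a2, hU k a3 (hin k a2 a3) ?_⟩
    have a4 : 1 - t₃ ^ 2 + θ * (50 / 23 - 2 * h - θ) ≤ 1 - ‖k‖ ^ 2 := by nlinarith
    have a5 : 2 * (1 + h) + θ ≤ (1 + h) ^ 2 * (50 / 23 - 2 * h - θ) := by nlinarith
    have a6 : (1 + h) ^ 2 ≤ ((1 + h) * u) ^ 2 := pow_le_pow_left₀ (by linarith) (by nlinarith) 2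
    have a7 := mul_le_mul_of_nonneg_right a6
      (mul_nonneg θ0.le (by linarith : 0 ≤ 50 / 23 - 2 * h - θ))
    have a8 := mul_le_mul_of_nonneg_left a4 (sq_nonneg ((1 + h) * u))
    have a9 : ((1 + h) * u) ^ 2 * (1 - t₃ ^ 2) = (1 + h) ^ 2 := by
      rw [mul_pow, mul_assoc, hut, mul_one]
    rw [hθ]
    nlinarith [mul_le_mul_of_nonneg_left a5 θ0.le]
  have m1 : MeasurableSet C₁ := by rw [hC₁]; measurability
  have m2 : MeasurableSet C₂ := by rw [hC₂]; measurability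
  have vU : volume ({y | ‖y‖ < t₃ ∧ ∀ j, inner ℝ (v j) y < 1} \ Γ) + ENNReal.ofReal
      (π / 3 * h * γ + π * (23 / 100) * γ ^ 2) ≤ volume U := by
    rw [ENNReal.ofReal_add (by positivity) (by positivity), ← v1, ← v2,
      ← measure_union (Set.disjoint_left.2 fun k p q => lt_asymm p.1.2 q.1.1) m2,
      ← measure_union (Set.disjoint_left.2 fun k p q => p.2 (q.elim (fun r => (s1 k r).1)
        fun r => (s2 k r).1)) (m1.union m2)]
    refine measure_mono ?_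
    rintro k (⟨⟨p1, p2⟩, p3⟩ | p | p)
    · refine hU k p1 p2 (hlow k p1 ((not_lt.1 p3).trans ?_))
      rw [div_mul_eq_mul_div, div_le_iff₀ ht]; nlinarith
    · exact (s1 k p).2
    · exact (s2 k p).2
  have vB : volume (Metric.ball (0 : E3) t₁) ≤ volume (Metric.ball (0 : E3) t₁ \ Γ) +
      ENNReal.ofReal (2 * π / 3 * t₁ ^ 3 * (1 - h / t₃)) := by
    rw [← cone_vol hn (by linarith [div_pos h0 ht]) ((div_le_one ht).2 hh) h1]
    refine (measure_mono fun k p => ?_).trans (measure_union_le _ _)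
    by_cases q : k ∈ Γ
    · exact Or.inr ⟨mem_ball_zero_iff.1 p, q⟩
    · exact Or.inl ⟨p, q⟩
  calc _ ≤ (d * volume ({y | ‖y‖ < t₃ ∧ ∀ j, inner ℝ (v j) y < 1} \ Γ) +
        ENNReal.ofReal (2 * π / 3 * t₁ ^ 3 * (1 - h / t₃))) +
        d * ENNReal.ofReal (π / 3 * h * γ + π * (23 / 100) * γ ^ 2) := by
        gcongr
        exact vB.trans (by gcongr)
    _ ≤ _ := by
        rw [add_right_comm, ← mul_add]
        gcongr

theorem transfer {t₁ d X Y : ℝ} (h1 : 0 < t₁) (h11 : t₁ < 1) (hd0 : 0 ≤ d) (hd1 : d ≤ 1)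
    {U : Set E3} (hU : MeasurableSet U) (hU1 : ∀ k ∈ U, ‖k‖ < 1)
    (h : volume (Metric.ball (0 : E3) t₁) + ENNReal.ofReal d * ENNReal.ofReal X ≤
      ENNReal.ofReal d * volume U + ENNReal.ofReal Y) :
    ∫⁻ k in Metric.ball (0 : E3) t₁, wt k ≤ ENNReal.ofReal d * (∫⁻ k in U, wt k) +
      ENNReal.ofReal ((1 - t₁ ^ 2) ^ 2)⁻¹ * ENNReal.ofReal (Y - d * X) := by
  have hB : MeasurableSet (Metric.ball (0 : E3) t₁) := Metric.isOpen_ball.measurableSet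
  set W := ((1 - t₁ ^ 2) ^ 2)⁻¹ with hW
  have hq : 0 < 1 - t₁ ^ 2 := by nlinarith
  have W0 : 0 < W := by positivity
  have a1 : (∫⁻ k in Metric.ball (0 : E3) t₁, wt k) +
      ENNReal.ofReal W * (ENNReal.ofReal d * volume U) ≤ ENNReal.ofReal d * (∫⁻ k in U, wt k) +
        ENNReal.ofReal W * volume (Metric.ball (0 : E3) t₁) := by
    rw [← mul_assoc, ← setLIntegral_const, ← setLIntegral_const,
      ← lintegral_const_mul' _ _ ENNReal.ofReal_ne_top, ← lintegral_indicator hB,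
      ← lintegral_indicator hB, ← lintegral_indicator hU, ← lintegral_indicator hU,
      ← lintegral_add_left (wt_meas.indicator hB),
      ← lintegral_add_right _ (measurable_const.indicator hB)]
    refine lintegral_mono fun k => ?_
    have hk := norm_nonneg k
    by_cases p : k ∈ Metric.ball (0 : E3) t₁
    · have p' : ‖k‖ < t₁ := mem_ball_zero_iff.1 p
      have b1 : ((1 - ‖k‖ ^ 2) ^ 2)⁻¹ ≤ W :=
        inv_anti₀ (by positivity) (pow_le_pow_left₀ hq.le (by nlinarith) 2)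
      have b0 : 0 ≤ ((1 - ‖k‖ ^ 2) ^ 2)⁻¹ := by positivity
      by_cases q : k ∈ U
      · simp only [indicator_of_mem p, indicator_of_mem q, wt]
        rw [← ENNReal.ofReal_mul W0.le, ← ENNReal.ofReal_mul hd0,
          ← ENNReal.ofReal_add b0 (by positivity), ← ENNReal.ofReal_add (by positivity) W0.le]
        exact ENNReal.ofReal_le_ofReal (by nlinarith)
      · simp only [indicator_of_mem p, indicator_of_notMem q, wt, add_zero, zero_add]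
        exact ENNReal.ofReal_le_ofReal b1
    · simp only [indicator_of_notMem p, add_zero, zero_add]
      by_cases q : k ∈ U
      · simp only [indicator_of_mem q, wt]
        rw [mul_comm]
        have p' : t₁ ≤ ‖k‖ := not_lt.1 fun r => p (mem_ball_zero_iff.2 r)
        have b2 : 0 < 1 - ‖k‖ ^ 2 := by nlinarith [hU1 k q]
        exact mul_le_mul_right (ENNReal.ofReal_le_ofReal
          (inv_anti₀ (by positivity) (pow_le_pow_left₀ b2.le (by nlinarith) 2))) _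
      · simp only [indicator_of_notMem q, le_refl]
  have a2 : volume (Metric.ball (0 : E3) t₁) ≤
      ENNReal.ofReal d * volume U + ENNReal.ofReal (Y - d * X) := by
    rw [← ENNReal.ofReal_mul hd0] at h
    refine (ENNReal.add_le_add_iff_right ENNReal.ofReal_ne_top).1 (h.trans ?_)
    rw [add_assoc]
    gcongr
    refine le_trans (le_of_eq ?_) ENNReal.ofReal_add_le
    congr 1; ring
  have fin : volume U ≠ ⊤ := ((measure_mono fun k p => mem_ball_zero_iff.2 (hU1 k p)).trans_lt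
    (measure_ball_lt_top (μ := volume) (x := (0 : E3)) (r := 1))).ne
  refine (ENNReal.add_le_add_iff_right (a := ENNReal.ofReal W * (ENNReal.ofReal d * volume U))
    (by finiteness)).1 (a1.trans ?_)
  rw [add_assoc, ← mul_add, add_comm (ENNReal.ofReal (Y - d * X))]
  gcongr

end Pool.Agent.Lib.MP_1e5ad7_co.R
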